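import Pool.Agent.H300R2.EC.Defs

/-!
# X3: the `2k`-th moment of the dyadic sums of `(D/p)/p` (helper379)
-/

set_option autoImplicit false

namespace Pool.Agent.H379R2.EC

open Finset Polynomial Filter
open Pool.Agent.H300R2.BH Pool.Agent.H300R2.EC

/-- tuples of primes with the same product are permutations of each other -/
theorem x3_tuples {k : ℕ} (n : ℕ) (S : Finset (Fin k → ℕ)) (hS : ∀ f ∈ S, (∀ i, (f i).Prime) ∧
    ∏ i, f i = n) : S.card ≤ k.factorial := by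
  have h1 : ∀ f ∈ S, ∀ f' ∈ S, Tuple.sort f = Tuple.sort f' → f = f' := by
    intro f hf f' hf' hs
    have hp : ∀ g ∈ S, List.Perm (List.ofFn g) n.primeFactorsList := by
      intro g hg
      refine Nat.primeFactorsList_unique ?_ ?_
      · rw [List.prod_ofFn]
        exact (hS g hg).2
      · intro p hp
        rw [List.mem_ofFn] at hp
        obtain ⟨i, rfl⟩ := hp
        exact (hS g hg).1 i
    have h2 : f ∘ Tuple.sort f = f' ∘ Tuple.sort f' := by
      apply List.ofFn_injective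
      refine List.Perm.eq_of_sortedLE (Tuple.monotone_sort f).sortedLE_ofFn
        (Tuple.monotone_sort f').sortedLE_ofFn ?_
      exact ((Tuple.sort f).ofFn_comp_perm f).trans ((hp f hf).trans ((hp f' hf').symm.trans
        ((Tuple.sort f').ofFn_comp_perm f').symm))
    rw [hs] at h2
    funext i
    have h3 := congrFun h2 ((Tuple.sort f').symm i)
    simpa using h3
  calc S.card ≤ (univ : Finset (Equiv.Perm (Fin k))).card :=
        Finset.card_le_card_of_injOn Tuple.sort (fun _ _ => Finset.mem_univ _)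
          (fun f hf f' hf' h => h1 f hf f' hf' h)
    _ = k.factorial := by
        rw [Finset.card_univ, Fintype.card_perm, Fintype.card_fin]

theorem x3_jac (D : ℤ) {k : ℕ} (f : Fin k → ℕ) (hf : ∀ i, f i ≠ 0) :
    jacobiSym D (∏ i, f i) = ∏ i, jacobiSym D (f i) := by
  rw [← List.prod_ofFn, jacobiSym.list_prod_right, List.map_ofFn, List.prod_ofFn]
  · rfl
  · intro n hn
    rw [List.mem_ofFn] at hn
    obtain ⟨i, rfl⟩ := hn
    exact hf i

/-- X3 -/
theorem moment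
    (large_sieve : ∀ (X N : ℕ) (a : ℕ → ℝ),
      ∑ D ∈ Dset X, (∑ n ∈ (Icc 1 N).filter (fun n : ℕ => Odd n),
        a n * (jacobiSym D n : ℝ)) ^ 2 ≤
      (N * Real.sqrt X + 8 * (X : ℝ) ^ 3) * ∑ n ∈ (Icc 1 N).filter (fun n : ℕ => Odd n), a n ^ 2)
    (X P k : ℕ) (hP : 1 ≤ P) (hk : 1 ≤ k) :
    ∑ D ∈ Dset X, (Sd D P (2 * P)) ^ (2 * k) ≤
      (k.factorial : ℝ) * (2 ^ k * Real.sqrt X + 8 * (X : ℝ) ^ 3 / (P : ℝ) ^ k) := by
  classical
  have hP0 : (0 : ℝ) < P := by exact_mod_cast hP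
  set T : Finset ℕ := (Ioc P (2 * P)).filter (fun p : ℕ => p.Prime ∧ p ≠ 2) with hT
  set Q : Finset (Fin k → ℕ) := Fintype.piFinset fun _ : Fin k => T with hQ
  set N : ℕ := (2 * P) ^ k with hN
  set O : Finset ℕ := (Icc 1 N).filter (fun n : ℕ => Odd n) with hO
  have hTmem : ∀ p ∈ T, p.Prime ∧ p ≠ 2 ∧ P < p ∧ p ≤ 2 * P := by
    intro p hp
    rw [hT, Finset.mem_filter, Finset.mem_Ioc] at hp
    exact ⟨hp.2.1, hp.2.2, hp.1.1, hp.1.2⟩
  have hQmem : ∀ f ∈ Q, ∀ i, f i ∈ T := fun f hf i => Fintype.mem_piFinset.1 hf i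
  have hmaps : ∀ f ∈ Q, ∏ i, f i ∈ O := by
    intro f hf
    rw [hO, Finset.mem_filter, Finset.mem_Icc]
    refine ⟨⟨?_, ?_⟩, ?_⟩
    · exact Nat.one_le_iff_ne_zero.2 (Finset.prod_ne_zero_iff.2 fun i _ =>
        (hTmem _ (hQmem f hf i)).1.ne_zero)
    · calc ∏ i, f i ≤ ∏ _i : Fin k, (2 * P) :=
            Finset.prod_le_prod' fun i _ => (hTmem _ (hQmem f hf i)).2.2.2
        _ = N := by rw [Finset.prod_const, Finset.card_univ, Fintype.card_fin, hN]
    · refine Finset.prod_induction (fun i => f i) Odd (fun a b ha hb => ha.mul hb) odd_one ?_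
      intro i _
      exact (hTmem _ (hQmem f hf i)).1.odd_of_ne_two (hTmem _ (hQmem f hf i)).2.1
  -- the coefficients
  set r : ℕ → ℕ := fun n => (Q.filter (fun f => ∏ i, f i = n)).card with hr
  have hr1 : ∀ n, r n ≤ k.factorial := by
    intro n
    refine x3_tuples n _ fun f hf => ?_
    rw [Finset.mem_filter] at hf
    exact ⟨fun i => (hTmem _ (hQmem f hf.1 i)).1, hf.2⟩
  have hgroup : ∀ G : ℕ → ℝ, ∑ f ∈ Q, G (∏ i, f i) = ∑ n ∈ O, (r n : ℝ) * G n := by
    intro G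
    rw [← Finset.sum_fiberwise_of_maps_to hmaps]
    refine Finset.sum_congr rfl fun n _ => ?_
    rw [Finset.sum_congr rfl (g := fun _ => G n)]
    · rw [Finset.sum_const, nsmul_eq_mul]
    · intro f hf
      rw [(Finset.mem_filter.1 hf).2]
  set a : ℕ → ℝ := fun n => (r n : ℝ) / n with ha
  have hpow : ∀ D : ℤ, (Sd D P (2 * P)) ^ k = ∑ n ∈ O, a n * (jacobiSym D n : ℝ) := by
    intro D
    have e1 : Sd D P (2 * P) = ∑ p ∈ T, (jacobiSym D p : ℝ) / p := rfl
    rw [e1, Finset.sum_pow']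
    have e2 : ∀ f ∈ Q, ∏ i, ((jacobiSym D (f i) : ℝ) / (f i : ℝ)) =
        (fun n : ℕ => (jacobiSym D n : ℝ) / (n : ℝ)) (∏ i, f i) := by
      intro f hf
      simp only
      rw [x3_jac D f fun i => (hTmem _ (hQmem f hf i)).1.ne_zero, Finset.prod_div_distrib]
      push_cast
      rfl
    rw [Finset.sum_congr rfl e2, hgroup (fun n : ℕ => (jacobiSym D n : ℝ) / (n : ℝ))]
    refine Finset.sum_congr rfl fun n _ => ?_
    rw [ha]
    ring
  have hsum : ∑ n ∈ O, a n ^ 2 ≤ (k.factorial : ℝ) / (P : ℝ) ^ k := by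
    have h1 : ∀ n ∈ O, a n ^ 2 ≤ (k.factorial : ℝ) * ((r n : ℝ) * (1 / (n : ℝ) ^ 2)) := by
      intro n _
      have h2 : (r n : ℝ) ≤ k.factorial := by exact_mod_cast hr1 n
      have h3 : 0 ≤ (r n : ℝ) * (1 / (n : ℝ) ^ 2) := by positivity
      calc a n ^ 2 = (r n : ℝ) * ((r n : ℝ) * (1 / (n : ℝ) ^ 2)) := by rw [ha]; ring
        _ ≤ _ := mul_le_mul_of_nonneg_right h2 h3
    have h2 : ∑ p ∈ T, (1 / (p : ℝ) ^ 2) ≤ 1 / (P : ℝ) := by
      calc ∑ p ∈ T, (1 / (p : ℝ) ^ 2) ≤ ∑ _p ∈ T, (1 / (P : ℝ) ^ 2) := by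
            refine Finset.sum_le_sum fun p hp => ?_
            have : (P : ℝ) ≤ p := by exact_mod_cast (hTmem p hp).2.2.1.le
            exact one_div_le_one_div_of_le (by positivity) (pow_le_pow_left₀ hP0.le this 2)
        _ = (T.card : ℝ) * (1 / (P : ℝ) ^ 2) := by rw [Finset.sum_const, nsmul_eq_mul]
        _ ≤ (P : ℝ) * (1 / (P : ℝ) ^ 2) := by
            refine mul_le_mul_of_nonneg_right ?_ (by positivity)
            have h3 : T.card ≤ (Ioc P (2 * P)).card := Finset.card_filter_le _ _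
            rw [Nat.card_Ioc] at h3
            have h4 : T.card ≤ P := by omega
            exact_mod_cast h4
        _ = 1 / P := by field_simp
    calc ∑ n ∈ O, a n ^ 2 ≤ ∑ n ∈ O, (k.factorial : ℝ) * ((r n : ℝ) * (1 / (n : ℝ) ^ 2)) :=
          Finset.sum_le_sum h1
      _ = (k.factorial : ℝ) * ∑ f ∈ Q, (fun n : ℕ => 1 / (n : ℝ) ^ 2) (∏ i, f i) := by
          rw [hgroup (fun n : ℕ => 1 / (n : ℝ) ^ 2), Finset.mul_sum]
      _ = (k.factorial : ℝ) * ∑ f ∈ Q, ∏ i, (1 / (f i : ℝ) ^ 2) := by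
          congr 1
          refine Finset.sum_congr rfl fun f _ => ?_
          simp only
          rw [Finset.prod_div_distrib, Finset.prod_const_one, Finset.prod_pow]
          push_cast
          rfl
      _ = (k.factorial : ℝ) * (∑ p ∈ T, (1 / (p : ℝ) ^ 2)) ^ k := by rw [Finset.sum_pow']
      _ ≤ (k.factorial : ℝ) * (1 / (P : ℝ)) ^ k := by
          refine mul_le_mul_of_nonneg_left (pow_le_pow_left₀ ?_ h2 k) (by positivity)
          exact Finset.sum_nonneg fun p _ => by positivity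
      _ = (k.factorial : ℝ) / (P : ℝ) ^ k := by rw [div_pow, one_pow]; ring
  have h1 := large_sieve X N a
  calc ∑ D ∈ Dset X, (Sd D P (2 * P)) ^ (2 * k)
      = ∑ D ∈ Dset X, (∑ n ∈ O, a n * (jacobiSym D n : ℝ)) ^ 2 := by
        refine Finset.sum_congr rfl fun D _ => ?_
        rw [← hpow D, ← pow_mul, mul_comm k 2]
    _ ≤ (N * Real.sqrt X + 8 * (X : ℝ) ^ 3) * ∑ n ∈ O, a n ^ 2 := h1
    _ ≤ (N * Real.sqrt X + 8 * (X : ℝ) ^ 3) * ((k.factorial : ℝ) / (P : ℝ) ^ k) :=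
        mul_le_mul_of_nonneg_left hsum (by positivity)
    _ = (k.factorial : ℝ) * (2 ^ k * Real.sqrt X + 8 * (X : ℝ) ^ 3 / (P : ℝ) ^ k) := by
        rw [hN]
        push_cast
        rw [mul_pow]
        field_simp

end Pool.Agent.H379R2.EC
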