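import Pool.Agent.H410R2.MStubs
import Pool.Prelude.Def_F_80dd6453

/-!
Singly attained primes from the Maynard–Tao theorem for linear forms.
-/

set_option autoImplicit false

open Finset

namespace Pool.Agent.H379R2.App1b

open Pool.Agent.H410R2

/-- `p` is bad at `r` -/
def Bad (p r : ℕ) : Prop := ∀ m' : ℕ, 0 < m' → (p - 1) / r ∣ Nat.totient m' → p ≤ m'

lemma m_pred {p : ℕ} (hp : p.Prime) (h2 : 2 < p) : N36a859e3.m (p - 1) = p := by
  unfold N36a859e3.m
  apply le_antisymm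
  · apply Nat.sInf_le
    refine ⟨hp.pos, ?_⟩
    rw [Nat.totient_prime hp]
  · apply le_csInf
    · exact ⟨p, hp.pos, by rw [Nat.totient_prime hp]⟩
    · rintro k ⟨hk, hdvd⟩
      have h3 : 0 < Nat.totient k := Nat.totient_pos.mpr hk
      have h4 : p - 1 ≤ Nat.totient k := Nat.le_of_dvd h3 hdvd
      rcases Nat.lt_or_ge 1 k with h | h
      · have := Nat.totient_lt k h
        omega
      · have : k = 1 := by omega
        subst this
        rw [Nat.totient_one] at h4
        omega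

lemma singly {p : ℕ} (hp : p.Prime) (h2 : 2 < p)
    (hgood : ∀ r : ℕ, r.Prime → r ∣ p - 1 → ¬ Bad p r) (n : ℕ) :
    N36a859e3.m n = p ↔ n = p - 1 := by
  constructor
  · intro h
    by_contra hne
    have hmem : p ∈ {k | 0 < k ∧ n ∣ Nat.totient k} := by
      have hne : ({k | 0 < k ∧ n ∣ Nat.totient k} : Set ℕ).Nonempty := by
        rw [Set.nonempty_iff_ne_empty]
        intro hemp
        unfold N36a859e3.m at h
        rw [hemp, Nat.sInf_empty] at h
        omega
      have := Nat.sInf_mem hne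
      unfold N36a859e3.m at h
      rw [h] at this
      exact this
    obtain ⟨_, hdvd⟩ := hmem
    rw [Nat.totient_prime hp] at hdvd
    obtain ⟨k, hk⟩ := hdvd
    have hn0 : n ≠ 0 := by
      rintro rfl
      rw [zero_mul] at hk
      omega
    have hk1 : k ≠ 1 := by
      rintro rfl
      rw [mul_one] at hk
      exact hne hk.symm
    obtain ⟨r, hr, hrk⟩ := Nat.exists_prime_and_dvd hk1
    obtain ⟨l, rfl⟩ := hrk
    have hrd : r ∣ p - 1 := by rw [hk]; exact ⟨n * l, by ring⟩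
    have hbad := hgood r hr hrd
    unfold Bad at hbad
    push Not at hbad
    obtain ⟨m', hm0, hmd, hmp⟩ := hbad
    have hq : (p - 1) / r = n * l := by
      rw [hk, show n * (r * l) = r * (n * l) by ring, Nat.mul_div_cancel_left _ hr.pos]
    rw [hq] at hmd
    have h3 : n ∣ Nat.totient m' := (dvd_mul_right n l).trans hmd
    have h4 : N36a859e3.m n ≤ m' := by
      unfold N36a859e3.m
      exact Nat.sInf_le ⟨hm0, h3⟩
    omega
  · rintro rfl
    exact m_pred hp h2

/-- if `p` is bad at `r ∣ p - 1` then `m ((p-1)/r) = p` -/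
lemma m_bad {p r : ℕ} (hp : p.Prime) (hr : r ∣ p - 1) (hbad : Bad p r) :
    N36a859e3.m ((p - 1) / r) = p := by
  unfold N36a859e3.m
  have hmem : p ∈ {k | 0 < k ∧ (p - 1) / r ∣ Nat.totient k} := by
    refine ⟨hp.pos, ?_⟩
    rw [Nat.totient_prime hp]
    exact Nat.div_dvd_of_dvd hr
  apply le_antisymm
  · exact Nat.sInf_le hmem
  · apply le_csInf ⟨p, hmem⟩
    rintro k ⟨hk, hdvd⟩
    exact hbad k hk hdvd

/-- the certificate up to `k` -/
def CertK (k : ℕ) : Prop := ∀ t : ℕ, 1 ≤ t → t < k →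
  (∃ m : ℕ, 0 < m ∧ m < 36 ^ t ∧ 36 ^ t / 2 ∣ Nat.totient m) ∧
  (∃ m : ℕ, 0 < m ∧ m < 36 ^ t ∧ 36 ^ t / 3 ∣ Nat.totient m)

/-- claim 2 -/
lemma good_small {k : ℕ} (hc : CertK k) {n i j : ℕ} (hi : 1 ≤ i) (hij : i < j) (hj : j ≤ k)
    (hn : 36 ^ k ≤ n) (hq : (36 ^ i * n + 1).Prime) (r : ℕ) (hr : r = 2 ∨ r = 3) :
    ¬ Bad (36 ^ j * n + 1) r := by
  intro hbad
  set t := j - i with ht
  have ht1 : 1 ≤ t := by omega
  have ht2 : t < k := by omega
  have hjt : 36 ^ j = 36 ^ i * 36 ^ t := by rw [← pow_add]; congr 1; omega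
  have hn0 : 0 < n := lt_of_lt_of_le (by positivity) hn
  have h36n : 36 ^ t ≤ n := (Nat.pow_le_pow_right (by norm_num) ht2.le).trans hn
  have h36i : 1 ≤ 36 ^ i := Nat.one_le_pow _ _ (by norm_num)
  have hr36 : r ∣ 36 ^ t := by
    have h1 : r ∣ 36 := by rcases hr with rfl | rfl <;> norm_num
    exact h1.trans (dvd_pow_self 36 (by omega))
  have hrpos : 0 < r := by rcases hr with rfl | rfl <;> norm_num
  obtain ⟨m, hm0, hm, hmd⟩ : ∃ m : ℕ, 0 < m ∧ m < 36 ^ t ∧ 36 ^ t / r ∣ Nat.totient m := by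
    rcases hr with rfl | rfl
    · exact (hc t ht1 ht2).1
    · exact (hc t ht1 ht2).2
  set q := 36 ^ i * n + 1 with hqdef
  have hqn : n ≤ 36 ^ i * n := Nat.le_mul_of_pos_left n (by omega)
  have hqm : m < q := by omega
  have hcop : Nat.Coprime q m := by
    rw [Nat.Prime.coprime_iff_not_dvd hq]
    intro h
    have := Nat.le_of_dvd hm0 h
    omega
  have hdiv : (36 ^ j * n + 1 - 1) / r ∣ Nat.totient (q * m) := by
    rw [Nat.totient_mul hcop, Nat.totient_prime hq, hqdef, Nat.add_sub_cancel, Nat.add_sub_cancel]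
    have h1 : 36 ^ j * n / r = (36 ^ i * n) * (36 ^ t / r) := by
      rw [hjt]
      rw [show 36 ^ i * 36 ^ t * n = (36 ^ i * n) * 36 ^ t by ring]
      exact Nat.mul_div_assoc _ hr36
    rw [h1]
    exact Nat.mul_dvd_mul_left _ hmd
  have h2 := hbad (q * m) (Nat.mul_pos hq.pos hm0) hdiv
  have h3 : q * m ≤ q * (36 ^ t - 1) := Nat.mul_le_mul_left q (by omega)
  have h4 : q * (36 ^ t - 1) + q = 36 ^ j * n + 36 ^ t := by
    have h5 : 36 ^ t - 1 + 1 = 36 ^ t := Nat.sub_add_cancel (Nat.one_le_pow _ _ (by norm_num))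
    calc q * (36 ^ t - 1) + q = q * (36 ^ t - 1 + 1) := by ring
      _ = q * 36 ^ t := by rw [h5]
      _ = 36 ^ j * n + 36 ^ t := by rw [hqdef, hjt]; ring
  omega

/-- exponent `j`: numbers `n ≤ x` for which `36^j n + 1` is a prime bad at a prime `r > R`
dividing `n` -/
lemma count_bad (j : ℕ) (X : ℕ) (R : ℝ) (hR : 0 < R) (S : Finset ℕ)
    (hS : ∀ n ∈ S, 1 ≤ n ∧ n ≤ X ∧ (36 ^ j * n + 1).Prime ∧
      ∃ r : ℕ, r.Prime ∧ r ∣ n ∧ R < r ∧ Bad (36 ^ j * n + 1) r) :
    (S.card : ℝ) ≤ 36 ^ j * X / R := by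
  classical
  -- choose r
  choose! r hr using fun n (hn : n ∈ S) => (hS n hn).2.2.2
  have hmaps : ∀ n ∈ S, 36 ^ j * n / r n ∈ Finset.Icc 1 ⌊(36 : ℝ) ^ j * X / R⌋₊ := by
    intro n hn
    obtain ⟨h1, h2, h3, _⟩ := hS n hn
    obtain ⟨hrp, hrn, hrR, _⟩ := hr n hn
    rw [Finset.mem_Icc]
    have hrpos : 0 < r n := hrp.pos
    constructor
    · apply Nat.div_pos _ hrpos
      have h4 := Nat.le_of_dvd h1 hrn
      have h5 : n ≤ 36 ^ j * n := Nat.le_mul_of_pos_left n (by positivity)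
      omega
    · apply Nat.le_floor
      refine Nat.cast_div_le.trans ?_
      push_cast
      have hrr : (0 : ℝ) < r n := by exact_mod_cast hrpos
      rw [div_le_div_iff₀ hrr hR]
      have h6 : (n : ℝ) ≤ X := by exact_mod_cast h2
      have h7 : (36 : ℝ) ^ j * n ≤ 36 ^ j * X := mul_le_mul_of_nonneg_left h6 (by positivity)
      calc (36 : ℝ) ^ j * n * R ≤ (36 ^ j * X) * R := mul_le_mul_of_nonneg_right h7 hR.le
        _ ≤ (36 ^ j * X) * r n := mul_le_mul_of_nonneg_left hrR.le (by positivity)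
  have hinj : Set.InjOn (fun n => 36 ^ j * n / r n) S := by
    intro n hn n' hn' heq
    simp only at heq
    obtain ⟨h1, h2, h3, _⟩ := hS n hn
    obtain ⟨hrp, hrn, hrR, hb⟩ := hr n hn
    obtain ⟨h1', h2', h3', _⟩ := hS n' hn'
    obtain ⟨hrp', hrn', hrR', hb'⟩ := hr n' hn'
    have e1 := m_bad h3 (by rw [Nat.add_sub_cancel]; exact hrn.mul_left _) hb
    have e2 := m_bad h3' (by rw [Nat.add_sub_cancel]; exact hrn'.mul_left _) hb'
    rw [Nat.add_sub_cancel] at e1 e2
    rw [heq, e2] at e1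
    have h8 : 36 ^ j * n' = 36 ^ j * n := by omega
    exact (Nat.eq_of_mul_eq_mul_left (by positivity) h8).symm
  have hcard : S.card ≤ ⌊(36 : ℝ) ^ j * X / R⌋₊ := by
    have := Finset.card_le_card_of_injOn _ hmaps hinj
    rwa [Nat.card_Icc, Nat.add_sub_cancel] at this
  calc (S.card : ℝ) ≤ ⌊(36 : ℝ) ^ j * X / R⌋₊ := by exact_mod_cast hcard
    _ ≤ 36 ^ j * X / R := Nat.floor_le (by positivity)

/-- admissibility of the forms -/
lemma admissible {k : ℕ} (p : ℕ) (hp : p.Prime) : ∃ n : ℕ, ¬ p ∣ n ∧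
    ∀ i : Fin k, ¬ p ∣ 36 ^ ((i : ℕ) + 1) * n + 1 := by
  by_cases h5 : p ∣ 36
  · have hp23 : p = 2 ∨ p = 3 := by
      have h6 : p ∣ 2 ^ 2 * 3 ^ 2 := by norm_num; exact h5
      rcases (Nat.Prime.dvd_mul hp).mp h6 with h | h
      · left; exact (Nat.prime_dvd_prime_iff_eq hp Nat.prime_two).mp (hp.dvd_of_dvd_pow h)
      · right; exact (Nat.prime_dvd_prime_iff_eq hp Nat.prime_three).mp (hp.dvd_of_dvd_pow h)
    refine ⟨1, ?_, ?_⟩
    · exact hp.one_lt.ne' ∘ Nat.dvd_one.mp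
    · intro i h
      have h1 : p ∣ 36 ^ ((i : ℕ) + 1) * 1 := (dvd_pow h5 (by omega)).mul_right _
      have h2 : p ∣ 1 := (Nat.dvd_add_right h1).mp h
      exact hp.one_lt.ne' (Nat.dvd_one.mp h2)
  · haveI : Fact p.Prime := ⟨hp⟩
    have hp2 : ringChar (ZMod p) ≠ 2 := by
      rw [ZMod.ringChar_zmod_n]
      rintro rfl
      exact h5 (by norm_num)
    obtain ⟨g, hg⟩ := FiniteField.exists_nonsquare hp2
    refine ⟨(-g).val, ?_, ?_⟩
    · intro h
      have h1 : ((-g).val : ZMod p) = 0 := (ZMod.natCast_eq_zero_iff _ _).mpr h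
      rw [ZMod.natCast_zmod_val, neg_eq_zero] at h1
      exact hg (by rw [h1]; exact ⟨0, by ring⟩)
    · intro i h
      have h1 : ((36 ^ ((i : ℕ) + 1) * (-g).val + 1 : ℕ) : ZMod p) = 0 :=
        (ZMod.natCast_eq_zero_iff _ _).mpr h
      push_cast at h1
      rw [ZMod.natCast_zmod_val] at h1
      have h36 : (36 : ZMod p) ≠ 0 := by
        intro h0
        apply h5
        have : ((36 : ℕ) : ZMod p) = 0 := by exact_mod_cast h0
        exact (ZMod.natCast_eq_zero_iff _ _).mp this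
      have h6 : (6 : ZMod p) ≠ 0 := by
        intro h0
        apply h36
        have : (36 : ZMod p) = 6 * 6 := by norm_num
        rw [this, h0, zero_mul]
      have h2 : (36 : ZMod p) ^ ((i : ℕ) + 1) * g = 1 := by linear_combination -h1
      apply hg
      refine ⟨(6 ^ ((i : ℕ) + 1))⁻¹, ?_⟩
      have h3 : (6 : ZMod p) ^ ((i : ℕ) + 1) ≠ 0 := pow_ne_zero _ h6
      have h4 : (36 : ZMod p) ^ ((i : ℕ) + 1) = 6 ^ ((i : ℕ) + 1) * 6 ^ ((i : ℕ) + 1) := by
        rw [← mul_pow]; norm_num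
      rw [h4] at h2
      field_simp
      linear_combination h2

theorem s10909k {k : ℕ} (hk0 : k ≠ 0) (h : MaynardTao k) (hc : CertK k) :
    {q | q.Prime ∧ ∀ n, N36a859e3.m n = q ↔ n = q - 1}.Infinite := by
  classical
  intro hfin
  obtain ⟨P0, hP0⟩ := hfin.bddAbove
  obtain ⟨δ, hδ0, hδ1, x0, hmt⟩ := h (fun i => 36 ^ ((i : ℕ) + 1)) (fun _ => 1)
    (fun i => Nat.one_le_pow _ _ (by norm_num)) (fun _ => le_rfl)
    (by
      intro i j hij heq
      simp only [mul_one] at heq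
      apply hij
      have := Nat.pow_right_injective (by norm_num : 2 ≤ 36) heq
      ext
      omega)
    admissible
  set n0 : ℕ := 36 ^ k + P0 with hn0
  set K : ℝ := ∑ j ∈ Finset.range (k + 1), (36 : ℝ) ^ j with hK
  have hK0 : 0 ≤ K := by positivity
  -- main inequality
  have key : ∀ x : ℝ, x0 ≤ x → 1 ≤ x → x ^ (1 - δ / 2) ≤ n0 + K * x ^ (1 - δ) := by
    intro x hx hx1
    refine (hmt x hx).trans ?_
    set S := (Finset.Icc 1 ⌊x⌋₊).filter (fun n => (∀ p : ℕ, p.Prime → p ∣ n → x ^ δ < p) ∧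
      ∃ i j : Fin k, i ≠ j ∧ (36 ^ ((i : ℕ) + 1) * n + 1).Prime ∧
        (36 ^ ((j : ℕ) + 1) * n + 1).Prime) with hS
    set B : ℕ → Finset ℕ := fun j => (Finset.Icc 1 ⌊x⌋₊).filter (fun n =>
      (36 ^ j * n + 1).Prime ∧ ∃ r : ℕ, r.Prime ∧ r ∣ n ∧ x ^ δ < r ∧ Bad (36 ^ j * n + 1) r)
      with hB
    have hsub : S ⊆ Finset.range n0 ∪ (Finset.range (k + 1)).biUnion B := by
      intro n hn
      rw [hS, Finset.mem_filter, Finset.mem_Icc] at hn
      obtain ⟨⟨hn1, hnx⟩, hrough, i, j, hij, hpi, hpj⟩ := hn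
      rw [Finset.mem_union]
      by_cases hsmall : n < n0
      · left; exact Finset.mem_range.mpr hsmall
      · right
        push Not at hsmall
        -- wlog i < j
        obtain ⟨a, b, hab, hb, ha1, hpa, hpb⟩ : ∃ a b : ℕ, a < b ∧ b ≤ k ∧ 1 ≤ a ∧
            (36 ^ a * n + 1).Prime ∧ (36 ^ b * n + 1).Prime := by
          rcases lt_or_gt_of_ne (fun hh => hij (Fin.ext hh) : (i : ℕ) ≠ j) with hlt | hlt
          · exact ⟨i + 1, j + 1, by omega, by have := j.2; omega, by omega, hpi, hpj⟩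
          · exact ⟨j + 1, i + 1, by omega, by have := i.2; omega, by omega, hpj, hpi⟩
        have hnbig : 36 ^ k ≤ n := by omega
        have hnle : n ≤ 36 ^ b * n := Nat.le_mul_of_pos_left n (by positivity)
        have hp2 : 2 < 36 ^ b * n + 1 := by
          have : 36 ^ k ≥ 36 := Nat.le_self_pow hk0 36
          omega
        have hnot : ¬ ∀ r : ℕ, r.Prime → r ∣ (36 ^ b * n + 1) - 1 → ¬ Bad (36 ^ b * n + 1) r := by
          intro hgood
          have hmem : (36 ^ b * n + 1) ∈ {q | q.Prime ∧ ∀ n, N36a859e3.m n = q ↔ n = q - 1} :=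
            ⟨hpb, singly hpb hp2 hgood⟩
          have h9 : 36 ^ b * n + 1 ≤ P0 := hP0 hmem
          have h10 : P0 ≤ n0 := by rw [hn0]; exact Nat.le_add_left _ _
          exact absurd (h9.trans (h10.trans (hsmall.trans hnle))) (by omega)
        push Not at hnot
        obtain ⟨r, hr, hrd, hbad⟩ := hnot
        rw [Nat.add_sub_cancel] at hrd
        have hr23 : ¬ (r = 2 ∨ r = 3) := by
          intro h23
          exact good_small hc ha1 hab hb hnbig hpa r h23 hbad
        have hrn : r ∣ n := by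
          rcases (Nat.Prime.dvd_mul hr).mp hrd with h1 | h1
          · exfalso
            apply hr23
            have h2 := hr.dvd_of_dvd_pow h1
            have h6 : r ∣ 2 ^ 2 * 3 ^ 2 := by norm_num; exact h2
            rcases (Nat.Prime.dvd_mul hr).mp h6 with h | h
            · left; exact (Nat.prime_dvd_prime_iff_eq hr Nat.prime_two).mp (hr.dvd_of_dvd_pow h)
            · right; exact (Nat.prime_dvd_prime_iff_eq hr Nat.prime_three).mp (hr.dvd_of_dvd_pow h)
          · exact h1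
        rw [Finset.mem_biUnion]
        refine ⟨b, Finset.mem_range.mpr (by omega), ?_⟩
        rw [hB, Finset.mem_filter, Finset.mem_Icc]
        exact ⟨⟨hn1, hnx⟩, hpb, r, hr, hrn, hrough r hr hrn, hbad⟩
    have hxδ : 0 < x ^ δ := Real.rpow_pos_of_pos (by linarith) _
    have hBcard : ∀ j, ((B j).card : ℝ) ≤ 36 ^ j * x ^ (1 - δ) := by
      intro j
      have h1 := count_bad j ⌊x⌋₊ (x ^ δ) hxδ (B j) (by
        intro n hn
        rw [hB, Finset.mem_filter, Finset.mem_Icc] at hn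
        exact ⟨hn.1.1, hn.1.2, hn.2.1, hn.2.2⟩)
      refine h1.trans ?_
      rw [Real.rpow_sub (by linarith), Real.rpow_one, mul_div_assoc]
      apply mul_le_mul_of_nonneg_left _ (by positivity)
      apply div_le_div_of_nonneg_right (Nat.floor_le (by linarith)) hxδ.le
    calc (S.card : ℝ) ≤ ((Finset.range n0 ∪ (Finset.range (k + 1)).biUnion B).card : ℝ) := by
          exact_mod_cast Finset.card_le_card hsub
      _ ≤ ((Finset.range n0).card : ℝ) + (((Finset.range (k + 1)).biUnion B).card : ℝ) := by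
          exact_mod_cast Finset.card_union_le _ _
      _ ≤ n0 + ∑ j ∈ Finset.range (k + 1), ((B j).card : ℝ) := by
          rw [Finset.card_range]
          have : (((Finset.range (k + 1)).biUnion B).card : ℝ) ≤
              ((∑ j ∈ Finset.range (k + 1), (B j).card : ℕ) : ℝ) := by
            exact_mod_cast Finset.card_biUnion_le
          push_cast at this ⊢
          linarith
      _ ≤ n0 + ∑ j ∈ Finset.range (k + 1), (36 : ℝ) ^ j * x ^ (1 - δ) := by
          have := Finset.sum_le_sum (fun j (_ : j ∈ Finset.range (k + 1)) => hBcard j)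
          linarith
      _ = n0 + K * x ^ (1 - δ) := by rw [hK, Finset.sum_mul]
  -- contradiction for large x
  have hlim : Filter.Tendsto (fun x : ℝ => x ^ (δ / 2)) Filter.atTop Filter.atTop :=
    tendsto_rpow_atTop (by linarith)
  obtain ⟨x, hx1, hx2, hx3⟩ := ((hlim.eventually_gt_atTop ((n0 : ℝ) + K + 1)).and
    ((Filter.eventually_ge_atTop x0).and (Filter.eventually_ge_atTop 1))).exists
  have h1 := key x hx2 hx3
  have hx0 : 0 < x := by linarith
  have h2 : x ^ (1 - δ / 2) = x ^ (1 - δ) * x ^ (δ / 2) := by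
    rw [← Real.rpow_add hx0]; congr 1; ring
  have h3 : 1 ≤ x ^ (1 - δ) := Real.one_le_rpow hx3 (by linarith)
  have hn0' : (0 : ℝ) ≤ n0 := by positivity
  rw [h2] at h1
  have h4 : x ^ (1 - δ) * ((n0 : ℝ) + K + 1) < x ^ (1 - δ) * x ^ (δ / 2) :=
    mul_lt_mul_of_pos_left hx1 (by linarith)
  nlinarith

theorem s10909 (h : MaynardTao 2000) (hc : Cert) :
    {q | q.Prime ∧ ∀ n, N36a859e3.m n = q ↔ n = q - 1}.Infinite :=
  s10909k (by norm_num) h hc

end Pool.Agent.H379R2.App1b
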