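import Pool.Agent.H379R2.ConstA

set_option autoImplicit false

/-! The constants `mB` for all even exponents `2k`, `k ≥ 6`. -/

namespace Pool.Agent.H379R2.Const6

open Real Finset Pool.Agent.H306R2

/-- the lower bound for the logarithm (with rational bounds of the constants) -/
lemma rat6 {K : ℝ} (h : 7 ≤ K) : 0 < K ^ 2 / 2 * (2 * (K + 6) / (6 * K ^ 2 - K + 6)) +
    K / 2 * (14 / (6 * K + 5)) + K * (K - 1) * (2 / (6 * K - 1)) +
    0.69314718 * ((5 * K ^ 2 - 3 * K) / 2) - 1.09863 * ((3 * K ^ 2 - K) / 2) -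
    (5 / 4 + 1 / (4 * K)) * 1.1483 -
    (1 + 1 / (2 * K)) * (3 * 0.69314719 - 2 / 15 + (K / 7 - 1)) -
    (0.69314719 + 1.09863 + ((K - 1) / 6 - 1)) + (3 / 4 - 1 / (4 * K)) * 0.69314718 -
    1 / (6 * K ^ 2) - 1 / (6 * K) - 1 / (3 * K * (K - 1)) - K * (K - 1) / 2 * 0.0488 := by
  obtain ⟨t, rfl⟩ : ∃ t : ℝ, K = 7 + t := ⟨K - 7, by ring⟩
  have ht0 : 0 ≤ t := by linarith
  rw [show 6 * (7 + t) ^ 2 - (7 + t) + 6 = 6 * t ^ 2 + 83 * t + 293 by ring,
    show 6 * (7 + t) + 5 = 47 + 6 * t by ring,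
    show 6 * (7 + t) - 1 = 41 + 6 * t by ring, show 7 + t - 1 = 6 + t by ring]
  have key : (7 + t) ^ 2 / 2 * (2 * (7 + t + 6) / (6 * t ^ 2 + 83 * t + 293)) +
    (7 + t) / 2 * (14 / (47 + 6 * t)) + (7 + t) * (6 + t) * (2 / (41 + 6 * t)) +
    0.69314718 * ((5 * (7 + t) ^ 2 - 3 * (7 + t)) / 2) - 1.09863 * ((3 * (7 + t) ^ 2 - (7 + t)) / 2) -
    (5 / 4 + 1 / (4 * (7 + t))) * 1.1483 -
    (1 + 1 / (2 * (7 + t))) * (3 * 0.69314719 - 2 / 15 + ((7 + t) / 7 - 1)) -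
    (0.69314719 + 1.09863 + ((6 + t) / 6 - 1)) + (3 / 4 - 1 / (4 * (7 + t))) * 0.69314718 -
    1 / (6 * (7 + t) ^ 2) - 1 / (6 * (7 + t)) - 1 / (3 * (7 + t) * (6 + t)) -
    (7 + t) * (6 + t) / 2 * 0.0488 =
    ((3767676119579419/300000000) * t ^ 0 + (23131962886790377/200000000) * t ^ 1 + (496773954005960311/4200000000) * t ^ 2 + (11080471463846381/200000000) * t ^ 3 + (9012496102608751/600000000) * t ^ 4 + (768213026847113/300000000) * t ^ 5 + (28046191073299/100000000) * t ^ 6 + (962815517937/50000000) * t ^ 7 + (132570451269/175000000) * t ^ 8 + (32682393/2500000) * t ^ 9) / ((6 * t ^ 2 + 83 * t + 293) * (47 + 6 * t) * (41 + 6 * t) * (7 + t) * (7 + t) * (6 + t)) := by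
    field_simp
    ring
  rw [key]
  positivity

lemma log_3 : log 3 ≤ 1.09863 := by
  have h1 : (3 : ℝ) ^ 12 ≤ 2 ^ 19 * 1.013644 := by norm_num
  have h2 := log_le_log (by positivity) h1
  rw [log_mul (by norm_num) (by norm_num), log_pow, log_pow] at h2
  have h3 := log_le_sub_one_of_pos (by norm_num : (0 : ℝ) < 1.013644)
  push_cast at h2
  linarith [log_two_lt_d9]

lemma log_105 : log (21 / 20) ≤ 0.0488 := by
  have h1 : (21 / 20 : ℝ) ≤ 1.00019061 ^ 256 := by norm_num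
  have h2 := log_le_log (by positivity) h1
  rw [log_pow] at h2
  have h3 := log_le_sub_one_of_pos (by norm_num : (0 : ℝ) < 1.00019061)
  push_cast at h2
  linarith

lemma log_78 : log (7 / 8) ≤ -(2 / 15) := by
  have := StirR.log_low (by norm_num : (0 : ℝ) < 7)
  rw [show (1 : ℝ) + 7⁻¹ = (7 / 8)⁻¹ by norm_num, log_inv] at this
  norm_num at this ⊢
  linarith

/-- parameters for odd `k` -/
def q6 (k : ℕ) : Fin 2 → ℕ := ![2, 2 * k]

noncomputable def β6 (K : ℝ) : Fin 2 → ℝ :=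
  ![(K ^ 2 + 2) / (K * (3 * K - 1)), (K + 2) / (K * (3 * K - 1))]

lemma adm6 {k j : ℕ} (hk : k = 2 * j + 1) (hj : 3 ≤ j) : Adm (2 * k) j (q6 k) (β6 k) := by
  have hkr : (k : ℝ) = 2 * j + 1 := by exact_mod_cast hk
  have hj3 : (3 : ℝ) ≤ j := by exact_mod_cast hj
  have hK7 : (7 : ℝ) ≤ k := by linarith
  have h3K : (0 : ℝ) < 3 * k - 1 := by linarith
  have hk0 : (0 : ℝ) < k := by linarith
  have n3 : 3 * (k : ℝ) - 1 ≠ 0 := h3K.ne'
  constructor
  · omega
  · intro i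
    fin_cases i
    · simp [q6]
    · simp [q6]; omega
  · rw [Fin.sum_univ_two]
    simp only [q6, Matrix.cons_val_zero, Matrix.cons_val_one]
    push_cast
    have : (j : ℝ) = (k - 1) / 2 := by linarith
    rw [this]
    field_simp
    ring
  · intro i
    fin_cases i
    · simp only [β6, Fin.zero_eta, Matrix.cons_val_zero]
      exact div_pos (by positivity) (mul_pos hk0 h3K)
    · simp only [β6, Fin.mk_one, Matrix.cons_val_one]
      exact div_pos (by positivity) (mul_pos hk0 h3K)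
  · intro i
    fin_cases i
    · simp only [β6, q6, Fin.zero_eta, Matrix.cons_val_zero]
      push_cast
      rw [div_le_div_iff₀ (mul_pos hk0 h3K) (by norm_num)]
      nlinarith
    · simp only [β6, q6, Fin.mk_one, Matrix.cons_val_one]
      push_cast
      rw [div_le_div_iff₀ (mul_pos hk0 h3K) (by positivity)]
      nlinarith
  · rw [Fin.sum_univ_two]
    simp only [β6, Matrix.cons_val_zero, Matrix.cons_val_one]
    rw [← add_div, div_le_one (mul_pos hk0 h3K)]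
    nlinarith
  · push_cast
    nlinarith

lemma odd6 {k j : ℕ} (hk : k = 2 * j + 1) (hj : 3 ≤ j) :
    (21 / 20) ^ (k ^ 2) / ((k ^ 2).factorial : ℝ) <
      mB (((2 * k : ℕ) : ℝ) / 2) j (q6 k) (β6 k) := by
  obtain ⟨K, hK⟩ : ∃ K : ℝ, K = k := ⟨_, rfl⟩
  have hkr : K = 2 * j + 1 := by rw [hK]; exact_mod_cast hk
  have hj3 : (3 : ℝ) ≤ j := by exact_mod_cast hj
  have hK7 : 7 ≤ K := by linarith
  have hK0 : 0 < K := by linarith
  have hK1 : 0 < K - 1 := by linarith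
  have h3K : 0 < 3 * K - 1 := by linarith
  have hD1 : 0 < 6 * K ^ 2 - K + 6 := by nlinarith
  have hjK : (j : ℝ) = (K - 1) / 2 := by linarith
  have hj0 : (0 : ℝ) < j := by linarith
  have n1 : K - 1 ≠ 0 := hK1.ne'
  have n3 : 3 * K - 1 ≠ 0 := h3K.ne'
  have hadm := adm6 hk hj
  have hκ : ((2 * k : ℕ) : ℝ) / 2 = K := by push_cast; rw [hK]; ring
  rw [hκ]
  rw [← hK] at hadm ⊢
  have e0 : K ^ 2 / ((q6 k 0 : ℕ) : ℝ) = K ^ 2 / 2 := by simp [q6]
  have e1 : K ^ 2 / ((q6 k 1 : ℕ) : ℝ) = K / 2 := by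
    simp only [q6, Matrix.cons_val_one]
    push_cast
    rw [← hK]; field_simp
  have hDe : 1 - ∑ i, β6 K i * (K ^ 2 / (q6 k i : ℝ) / (K ^ 2 / (q6 k i : ℝ) + 1)) =
      (2 * K - 2) / (3 * K - 1) := by
    rw [Fin.sum_univ_two, e0, e1]
    simp only [β6, Matrix.cons_val_zero, Matrix.cons_val_one]
    have f1 : K ^ 2 / 2 / (K ^ 2 / 2 + 1) = K ^ 2 / (K ^ 2 + 2) := by field_simp
    have f2 : K / 2 / (K / 2 + 1) = K / (K + 2) := by field_simp
    have f3 : (K ^ 2 + 2) / (K * (3 * K - 1)) * (K ^ 2 / (K ^ 2 + 2)) = K / (3 * K - 1) := by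
      field_simp
    have f4 : (K + 2) / (K * (3 * K - 1)) * (K / (K + 2)) = 1 / (3 * K - 1) := by
      field_simp
    rw [f1, f2, f3, f4, eq_div_iff n3, sub_mul, add_mul, div_mul_cancel₀ _ n3,
      div_mul_cancel₀ _ n3]
    ring
  have hD0 : 0 < (2 * K - 2) / (3 * K - 1) := div_pos (by linarith) h3K
  have hmB := ConstB.mB_eq K j (q6 k) (β6 K) hK0 hadm.hβ (by rw [hDe]; exact hD0)
  rw [hDe, Fin.sum_univ_two, e0, e1] at hmB
  simp only [β6, Matrix.cons_val_zero, Matrix.cons_val_one] at hmB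
  have hβdef : β6 K = ![(K ^ 2 + 2) / (K * (3 * K - 1)), (K + 2) / (K * (3 * K - 1))] := rfl
  rw [← hβdef] at hmB
  rw [hmB]
  have hy : K * (j : ℝ) = K * (K - 1) / 2 := by rw [hjK]; ring
  rw [hy]
  have hfac : ((k ^ 2).factorial : ℝ) = Gamma (K ^ 2 + 1) := by
    rw [← Gamma_nat_eq_factorial, hK]; push_cast; rfl
  rw [hfac]
  have hg0 : 0 < Gamma (K ^ 2 + 1) := Gamma_pos_of_pos (by positivity)
  obtain ⟨g, hg⟩ : ∃ g : ℝ, g = log (Gamma (K ^ 2 + 1)) := ⟨_, rfl⟩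
  obtain ⟨lt, hlt⟩ : ∃ l : ℝ, l = log (21 / 20) := ⟨_, rfl⟩
  have hL : (21 / 20 : ℝ) ^ (k ^ 2) / Gamma (K ^ 2 + 1) = exp (K ^ 2 * lt - g) := by
    rw [exp_sub, hg, exp_log hg0, hlt, hK, mul_comm, ← Nat.cast_pow, ← rpow_natCast,
      rpow_def_of_pos (by norm_num : (0 : ℝ) < 21 / 20)]
  rw [hL, ← hg]
  apply exp_lt_exp.mpr
  -- Stirling
  have s1 := StirR.log_gamma_le (x := K ^ 2 / 2) (by positivity)
  have s1' := StirR.log_gamma_le (x := K / 2) (by positivity)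
  have s2 := StirR.log_gamma_ge (x := K ^ 2) (by positivity)
  have s3 := StirR.log_gamma_le (x := K * (K - 1) / 2) (by positivity)
  rw [← hg] at s2
  obtain ⟨l2, hl2⟩ : ∃ l : ℝ, l = log 2 := ⟨_, rfl⟩
  obtain ⟨l3, hl3⟩ : ∃ l : ℝ, l = log 3 := ⟨_, rfl⟩
  obtain ⟨lk, hlk⟩ : ∃ l : ℝ, l = log K := ⟨_, rfl⟩
  obtain ⟨l1, hl1⟩ : ∃ l : ℝ, l = log (K - 1) := ⟨_, rfl⟩
  obtain ⟨lp, hlp⟩ : ∃ l : ℝ, l = log π := ⟨_, rfl⟩
  obtain ⟨ld, hld⟩ : ∃ l : ℝ, l = log (3 * K - 1) := ⟨_, rfl⟩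
  obtain ⟨lb, hlb⟩ : ∃ l : ℝ, l = log (K ^ 2 + 2) := ⟨_, rfl⟩
  obtain ⟨lc, hlc⟩ : ∃ l : ℝ, l = log (K + 2) := ⟨_, rfl⟩
  have a1 : log (K ^ 2 / 2) = 2 * lk - l2 := by
    rw [log_div (by positivity) (by norm_num), log_pow, hlk, hl2]; norm_num
  have a1' : log (K / 2) = lk - l2 := by
    rw [log_div (by positivity) (by norm_num), hlk, hl2]
  have a2 : log (K ^ 2) = 2 * lk := by rw [log_pow, hlk]; norm_num
  have a3 : log (K * (K - 1) / 2) = lk + l1 - l2 := by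
    rw [log_div (by positivity) (by norm_num), log_mul hK0.ne' hK1.ne', hlk, hl1, hl2]
  have c1 : log (2 * π * (K ^ 2 / 2)) = lp + 2 * lk := by
    rw [log_mul (by positivity) (by positivity), log_mul (by norm_num) pi_pos.ne', a1, ← hl2, ← hlp]
    ring
  have c1' : log (2 * π * (K / 2)) = lp + lk := by
    rw [log_mul (by positivity) (by positivity), log_mul (by norm_num) pi_pos.ne', a1', ← hl2, ← hlp]
    ring
  have c2 : log (2 * π * K ^ 2) = l2 + lp + 2 * lk := by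
    rw [log_mul (by positivity) (by positivity), log_mul (by norm_num) pi_pos.ne', a2, ← hl2, ← hlp]
  have c3 : log (2 * π * (K * (K - 1) / 2)) = lp + lk + l1 := by
    rw [log_mul (by positivity) (by positivity), log_mul (by norm_num) pi_pos.ne', a3, ← hl2, ← hlp]
    ring
  rw [a1, c1] at s1
  rw [a1', c1'] at s1'
  rw [a2, c2] at s2
  rw [a3, c3] at s3
  have e4 : log ((K ^ 2 + 2) / (K * (3 * K - 1))) = lb - lk - ld := by
    rw [log_div (by positivity) (by positivity), log_mul hK0.ne' h3K.ne', hlb, hlk, hld]; ring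
  have e4' : log ((K + 2) / (K * (3 * K - 1))) = lc - lk - ld := by
    rw [log_div (by positivity) (by positivity), log_mul hK0.ne' h3K.ne', hlc, hlk, hld]; ring
  have e5 : log ((2 * K - 2) / (3 * K - 1)) = l2 + l1 - ld := by
    rw [log_div (by linarith) h3K.ne', show 2 * K - 2 = 2 * (K - 1) by ring,
      log_mul (by norm_num) hK1.ne', hl2, hl1, hld]
  rw [e4, e4', e5]
  -- elementary log bounds
  have b1 : 2 * (K + 6) / (6 * K ^ 2 - K + 6) ≤ lb + l3 - lk - ld := by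
    have ha : 0 < K * (3 * K - 1) / (K + 6) := by positivity
    have := StirR.log_low ha
    have g1 : 1 + (K * (3 * K - 1) / (K + 6))⁻¹ = (K ^ 2 + 2) * 3 / (K * (3 * K - 1)) := by
      rw [inv_div, eq_div_iff (by positivity), add_mul, div_mul_cancel₀ _ (by positivity)]
      ring
    rw [g1, log_div (by positivity) (by positivity), log_mul (by positivity) (by norm_num),
      log_mul hK0.ne' h3K.ne'] at this
    have g2 : 2 / (2 * (K * (3 * K - 1) / (K + 6)) + 1) = 2 * (K + 6) / (6 * K ^ 2 - K + 6) := by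
      rw [div_eq_div_iff (by positivity) hD1.ne']
      field_simp
      ring
    rw [g2] at this
    rw [hlb, hl3, hlk, hld]; linarith
  have b1' : 14 / (6 * K + 5) ≤ lc + l3 - ld := by
    have ha : 0 < (3 * K - 1) / 7 := by positivity
    have := StirR.log_low ha
    have g1 : 1 + ((3 * K - 1) / 7)⁻¹ = (K + 2) * 3 / (3 * K - 1) := by
      rw [inv_div, eq_div_iff n3, add_mul, div_mul_cancel₀ _ n3]
      ring
    rw [g1, log_div (by positivity) h3K.ne', log_mul (by positivity) (by norm_num)] at this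
    have g2 : 2 / (2 * ((3 * K - 1) / 7) + 1) = 14 / (6 * K + 5) := by
      rw [div_eq_div_iff (by positivity) (by positivity)]
      ring
    rw [g2] at this
    rw [hlc, hl3, hld]; exact this
  have b2 : 2 / (6 * K - 1) ≤ lk + l3 - ld := by
    have := StirR.log_low h3K
    have g1 : 1 + (3 * K - 1)⁻¹ = K * 3 / (3 * K - 1) := by
      rw [eq_div_iff n3, add_mul, inv_mul_cancel₀ n3]
      ring
    rw [g1, log_div (by positivity) h3K.ne', log_mul (by positivity) (by norm_num)] at this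
    rw [show 2 * (3 * K - 1) + 1 = 6 * K - 1 by ring] at this
    rw [hlk, hl3, hld]; exact this
  have b3 : l3 ≤ 1.09863 := by rw [hl3]; exact log_3
  have b4 : lp ≤ 1.1483 := by
    have := ConstA.log_pi_half
    rw [log_div pi_pos.ne' (by norm_num), ← hlp, ← hl2] at this
    have h2 := log_two_lt_d9
    rw [← hl2] at h2
    linarith
  have b5 : lt ≤ 0.0488 := by rw [hlt]; exact log_105
  have b6 : 0.69314718 ≤ l2 := by rw [hl2]; linarith [log_two_gt_d9]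
  have b6' : l2 ≤ 0.69314719 := by rw [hl2]; linarith [log_two_lt_d9]
  have b7 : lk ≤ 3 * 0.69314719 - 2 / 15 + (K / 7 - 1) := by
    have h1 : lk = 3 * l2 + log (7 / 8) + log (K / 7) := by
      rw [hlk, hl2, log_div (by norm_num) (by norm_num), log_div hK0.ne' (by norm_num),
        show (8 : ℝ) = 2 ^ 3 by norm_num, log_pow]
      push_cast; ring
    have h2 := log_le_sub_one_of_pos (x := K / 7) (by positivity)
    linarith [log_78]
  have b8 : l1 ≤ 0.69314719 + 1.09863 + ((K - 1) / 6 - 1) := by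
    have h1 : l1 = l2 + l3 + log ((K - 1) / 6) := by
      rw [hl1, hl2, hl3, log_div hK1.ne' (by norm_num), show (6 : ℝ) = 2 * 3 by norm_num,
        log_mul (by norm_num) (by norm_num)]
      ring
    have h2 := log_le_sub_one_of_pos (x := (K - 1) / 6) (by positivity)
    linarith
  have hr := rat6 hK7
  obtain ⟨G1, hG1⟩ : ∃ G : ℝ, G = log (Gamma (K ^ 2 / 2 + 1)) := ⟨_, rfl⟩
  obtain ⟨G2, hG2⟩ : ∃ G : ℝ, G = log (Gamma (K / 2 + 1)) := ⟨_, rfl⟩
  obtain ⟨G3, hG3⟩ : ∃ G : ℝ, G = log (Gamma (K * (K - 1) / 2 + 1)) := ⟨_, rfl⟩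
  rw [← hG1] at s1 ⊢
  rw [← hG2] at s1' ⊢
  rw [← hG3] at s3 ⊢
  have hK1r : 1 / (2 * K) ≤ 1 / 14 := by
    apply one_div_le_one_div_of_le (by norm_num); linarith
  have hK10 : 0 < 1 / (2 * K) := by positivity
  -- the key inequality multiplied by `(K-1)/(2K)`
  have key : (1 / 2 - 1 / (2 * K)) * (K ^ 2 * lt - g) <
      K ^ 2 / 2 * (lb - lk - ld) - G1 + (K / 2 * (lc - lk - ld) - G2) +
      2 * (K * (K - 1) / 2) * (l2 + l1 - ld) + g - 2 * G3 := by
    have t1 := mul_le_mul_of_nonneg_left b1 (by positivity : 0 ≤ K ^ 2 / 2)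
    have t1' := mul_le_mul_of_nonneg_left b1' (by positivity : 0 ≤ K / 2)
    have t2 := mul_le_mul_of_nonneg_left b2 (by positivity : 0 ≤ K * (K - 1))
    have t3 := mul_le_mul_of_nonneg_left s2 (by linarith : 0 ≤ 1 + (1 / 2 - 1 / (2 * K)))
    have t4 := mul_le_mul_of_nonneg_left b3 (by nlinarith : 0 ≤ (3 * K ^ 2 - K) / 2)
    have t5 := mul_le_mul_of_nonneg_left b4 (by positivity : 0 ≤ 5 / 4 + 1 / (4 * K))
    have t6 := mul_le_mul_of_nonneg_left b5 (by positivity : 0 ≤ K * (K - 1) / 2)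
    have t7 := mul_le_mul_of_nonneg_left b6 (by nlinarith : 0 ≤ (5 * K ^ 2 - 3 * K) / 2)
    have hq4 : 1 / (4 * K) ≤ 1 / 28 := by
      apply one_div_le_one_div_of_le (by norm_num); linarith
    have t8 := mul_le_mul_of_nonneg_left b6 (by linarith : 0 ≤ 3 / 4 - 1 / (4 * K))
    have t9 := mul_le_mul_of_nonneg_left b7 (by positivity : 0 ≤ 1 + 1 / (2 * K))
    have i1 : 1 / (12 * (K ^ 2 / 2)) = 1 / (6 * K ^ 2) := by field_simp; norm_num
    have i2 : 1 / (12 * (K / 2)) = 1 / (6 * K) := by field_simp; norm_num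
    have i3 : 2 * (1 / (12 * (K * (K - 1) / 2))) = 1 / (3 * K * (K - 1)) := by
      field_simp; norm_num
    rw [i1] at s1
    rw [i2] at s1'
    have i5 : (1 + (1 / 2 - 1 / (2 * K))) * (K ^ 2 * (2 * lk) - K ^ 2 + (l2 + lp + 2 * lk) / 2) =
        (K ^ 2 + K * (K - 1) / 2) * (2 * lk - 1) +
        (3 / 4 - 1 / (4 * K)) * (l2 + lp + 2 * lk) := by
      field_simp; ring
    rw [i5] at t3
    have i6 : (1 / 2 - 1 / (2 * K)) * (K ^ 2 * lt - g) = K * (K - 1) / 2 * lt -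
        (1 / 2 - 1 / (2 * K)) * g := by
      field_simp
    have i7 : 1 / (4 * K) = 1 / (2 * K) / 2 := by field_simp; norm_num
    rw [i6]
    rw [i7] at t3 t5 t8 hr
    have hfin : K ^ 2 / 2 * (lb - lk - ld) - G1 + (K / 2 * (lc - lk - ld) - G2) +
      2 * (K * (K - 1) / 2) * (l2 + l1 - ld) + g - 2 * G3 -
      (K * (K - 1) / 2 * lt - (1 / 2 - 1 / (2 * K)) * g) =
      (K ^ 2 / 2 * (lb + l3 - lk - ld)) + (K / 2 * (lc + l3 - ld)) + K * (K - 1) * (lk + l3 - ld) +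
      (5 * K ^ 2 - 3 * K) / 2 * l2 - (3 * K ^ 2 - K) / 2 * l3 -
      (5 / 4 + 1 / (2 * K) / 2) * lp - (1 + 1 / (2 * K)) * lk - l1 +
      (3 / 4 - 1 / (2 * K) / 2) * l2 - K * (K - 1) / 2 * lt +
      ((1 + (1 / 2 - 1 / (2 * K))) * g - ((K ^ 2 + K * (K - 1) / 2) * (2 * lk - 1) +
        (3 / 4 - 1 / (2 * K) / 2) * (l2 + lp + 2 * lk))) +
      (K ^ 2 / 2 * (2 * lk - l2) - K ^ 2 / 2 + (lp + 2 * lk) / 2 - G1) +
      (K / 2 * (lk - l2) - K / 2 + (lp + lk) / 2 - G2) +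
      2 * (K * (K - 1) / 2 * (lk + l1 - l2) - K * (K - 1) / 2 + (lp + lk + l1) / 2 - G3) := by
      ring
    have hr' : 0 < (K ^ 2 / 2 * (2 * (K + 6) / (6 * K ^ 2 - K + 6)) +
    K / 2 * (14 / (6 * K + 5)) + K * (K - 1) * (2 / (6 * K - 1)) +
    (5 * K ^ 2 - 3 * K) / 2 * 0.69314718 - (3 * K ^ 2 - K) / 2 * 1.09863 -
    (5 / 4 + 1 / (2 * K) / 2) * 1.1483 -
    (1 + 1 / (2 * K)) * (3 * 0.69314719 - 2 / 15 + (K / 7 - 1)) -
    (0.69314719 + 1.09863 + ((K - 1) / 6 - 1)) + (3 / 4 - 1 / (2 * K) / 2) * 0.69314718 -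
    1 / (6 * K ^ 2) - 1 / (6 * K) - 1 / (3 * K * (K - 1)) - K * (K - 1) / 2 * 0.0488) := by
      linarith
    have s3' : 2 * G3 ≤ 2 * (K * (K - 1) / 2 * (lk + l1 - l2) - K * (K - 1) / 2 +
        (lp + lk + l1) / 2) + 1 / (3 * K * (K - 1)) := by
      rw [← i3]; linarith
    linarith
  have hKj : K / (j : ℝ) * (1 / 2 - 1 / (2 * K)) = 1 := by
    rw [hjK]; field_simp
  have hKj0 : 0 < K / (j : ℝ) := by positivity
  have := mul_lt_mul_of_pos_right key hKj0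
  refine lt_of_eq_of_lt ?_ this
  linear_combination (-(K ^ 2 * lt - g)) * hKj

end Pool.Agent.H379R2.Const6
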