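import Pool.Agent.H379R2.StirR

set_option autoImplicit false

/-! The binomial inequality for `2k = 4h`. -/

namespace Pool.Agent.H379R2.Even6

open Real Finset

/-- `b M = (16/729)^M * C(2M,M)^3`, `b M ≥ 0.18 * (21/20)^(2M)` for `M ≥ 18`. -/
lemma centr (M : ℕ) (hM : 18 ≤ M) :
    (18 / 100 : ℝ) * (21 / 20) ^ (2 * M) ≤ (16 / 729) ^ M * (Nat.centralBinom M : ℝ) ^ 3 := by
  induction M, hM using Nat.le_induction with
  | base =>
    have : Nat.centralBinom 18 = 9075135300 := by decide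
    rw [this]
    norm_num
  | succ M hM ih =>
    have h1 : ((M : ℝ) + 1) * Nat.centralBinom (M + 1) = 2 * (2 * M + 1) * Nat.centralBinom M := by
      have := Nat.succ_mul_centralBinom_succ M
      exact_mod_cast this
    have hM18 : (18 : ℝ) ≤ M := by exact_mod_cast hM
    have hM1 : (0 : ℝ) < (M : ℝ) + 1 := by positivity
    have h2 : (Nat.centralBinom (M + 1) : ℝ) =
        (2 * (2 * M + 1) / (M + 1)) * Nat.centralBinom M := by
      rw [div_mul_eq_mul_div, eq_div_iff hM1.ne', mul_comm, h1]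
    rw [h2, mul_pow, pow_succ, show 2 * (M + 1) = 2 * M + 2 by ring, pow_add]
    have h3 : (21 / 20 : ℝ) ^ 2 ≤ 16 / 729 * (2 * (2 * M + 1) / (M + 1)) ^ 3 := by
      have h4 : (3.89 : ℝ) ≤ 2 * (2 * M + 1) / (M + 1) := by
        rw [le_div_iff₀ hM1]; linarith
      have h5 : (3.89 : ℝ) ^ 3 ≤ (2 * (2 * M + 1) / (M + 1)) ^ 3 := by
        gcongr
      have h6 : (21 / 20 : ℝ) ^ 2 ≤ 16 / 729 * 3.89 ^ 3 := by norm_num
      linarith
    have h7 : (0 : ℝ) < (16 / 729) ^ M * (Nat.centralBinom M : ℝ) ^ 3 := by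
      have := Nat.centralBinom_pos M
      positivity
    calc (18 / 100 : ℝ) * ((21 / 20) ^ (2 * M) * (21 / 20) ^ 2)
        = (18 / 100 : ℝ) * (21 / 20) ^ (2 * M) * (21 / 20) ^ 2 := by ring
      _ ≤ ((16 / 729) ^ M * (Nat.centralBinom M : ℝ) ^ 3) *
          (16 / 729 * (2 * (2 * M + 1) / (M + 1)) ^ 3) :=
          mul_le_mul ih h3 (by positivity) h7.le
      _ = _ := by ring

lemma exp_lb (M : ℕ) (hM : 18 ≤ M) : (6 : ℝ) ≤ (1 + 1 / (M : ℝ)) ^ (2 * M) := by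
  have hM18 : (18 : ℝ) ≤ M := by exact_mod_cast hM
  have hM0 : (0 : ℝ) < M := by linarith
  have h1 := StirR.log_low hM0
  have h2 : (72 / 37 : ℝ) ≤ log ((1 + 1 / (M : ℝ)) ^ (2 * M)) := by
    rw [log_pow]
    push_cast
    rw [one_div]
    have h3 : 2 / (2 * (M : ℝ) + 1) * (2 * M) ≤ log (1 + (M : ℝ)⁻¹) * (2 * M) :=
      mul_le_mul_of_nonneg_right h1 (by positivity)
    have h4 : (72 / 37 : ℝ) ≤ 2 / (2 * (M : ℝ) + 1) * (2 * M) := by
      rw [div_mul_eq_mul_div, div_le_div_iff₀ (by norm_num) (by positivity)]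
      linarith
    linarith
  have h3 : exp (72 / 37) ≤ (1 + 1 / (M : ℝ)) ^ (2 * M) := by
    rw [← exp_log (by positivity : (0 : ℝ) < (1 + 1 / (M : ℝ)) ^ (2 * M))]
    exact exp_le_exp.mpr h2
  have h4 : (6 : ℝ) ≤ exp (72 / 37) := by
    rw [← log_le_iff_le_exp (by norm_num)]
    have h5 : log (6 : ℝ) = 3 * log 2 + log (3 / 4) := by
      rw [show (6 : ℝ) = 2 ^ 3 * (3 / 4) by norm_num, log_mul (by norm_num) (by norm_num), log_pow]
      push_cast; ring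
    have h6 := log_le_sub_one_of_pos (by norm_num : (0 : ℝ) < 3 / 4)
    rw [h5]
    have := log_two_lt_d9
    norm_num at this ⊢
    linarith
  linarith

lemma even6 (h : ℕ) (hh : 3 ≤ h) :
    (21 / 20 : ℝ) ^ (4 * h ^ 2) <
      (1 + 1 / (2 * (h:ℝ) ^ 2)) ^ (4 * h ^ 2) * (16 / 729) ^ (2 * h ^ 2) *
      ((2 * (2 * h ^ 2)).choose (2 * h ^ 2) : ℝ) ^ 3 := by
  have hM : 18 ≤ 2 * h ^ 2 := by nlinarith
  obtain ⟨M, hMd⟩ : ∃ M : ℕ, M = 2 * h ^ 2 := ⟨_, rfl⟩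
  have e1 : 4 * h ^ 2 = 2 * M := by rw [hMd]; ring
  have e2 : 2 * (h : ℝ) ^ 2 = M := by rw [hMd]; push_cast; ring
  rw [e1, e2, ← hMd]
  have h1 := centr M (by omega)
  have h2 := exp_lb M (by omega)
  rw [Nat.centralBinom] at h1
  rw [mul_assoc]
  have h3 : (0 : ℝ) < (21 / 20) ^ (2 * M) := by positivity
  have h4 : 6 * ((18 / 100 : ℝ) * (21 / 20) ^ (2 * M)) ≤ (1 + 1 / (M : ℝ)) ^ (2 * M) *
      ((16 / 729) ^ M * ((2 * M).choose M : ℝ) ^ 3) :=
    mul_le_mul h2 h1 (by positivity) (by positivity)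
  linarith

end Pool.Agent.H379R2.Even6
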