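import Pool.Agent.H379R2.Const6
import Pool.Agent.H379R2.Even6

set_option autoImplicit false

/-! The constants `mB` for all even exponents `2k`, `k ≥ 6`: `mB > (21/20)^(k^2) / (k^2)!`. -/

namespace Pool.Agent.H379R2.Const6

open Finset Filter Topology Pool.Agent.H306R2

noncomputable section

/-- `N = 2h²`. -/
lemma even_const (h : ℕ) (hh : 1 ≤ h) :
    mB (((4 * h : ℕ) : ℝ) / 2) h (fun _ : Fin 1 => 2) (fun _ => (2 * (h:ℝ) ^ 2 + 1) / (6 * (h:ℝ) ^ 2)) =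
    (1 + 1 / (2 * (h:ℝ) ^ 2)) ^ (4 * h ^ 2) * (16 / 729) ^ (2 * h ^ 2) *
      ((2 * (2 * h ^ 2)).choose (2 * h ^ 2) : ℝ) ^ 3 / ((4 * h ^ 2).factorial : ℝ) := by
  have hh0 : (0:ℝ) < h := by exact_mod_cast hh
  set N : ℕ := 2 * h ^ 2 with hN
  have hNpos : 0 < N := by positivity
  have hN0 : (0:ℝ) < N := by exact_mod_cast hNpos
  have hNr : (N : ℝ) = 2 * (h:ℝ) ^ 2 := by rw [hN]; push_cast; ring
  have e1 : (((4 * h : ℕ) : ℝ) / 2) = 2 * h := by push_cast; ring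
  unfold mB
  rw [e1]
  simp only [univ_unique, prod_const, card_singleton, pow_one, sum_const, one_smul, Nat.cast_ofNat]
  have e2 : (2 * (h:ℝ)) ^ 2 / 2 = N := by rw [hNr]; ring
  have e3 : (2 * (h:ℝ)) ^ 2 = ((2 * N : ℕ) : ℝ) := by push_cast; rw [hNr]; ring
  have e4 : 2 * (h:ℝ) * h = N := by rw [hNr]; ring
  rw [e2, e3, e4]
  rw [Real.Gamma_nat_eq_factorial, Real.Gamma_nat_eq_factorial]
  have e5 : (2 * (h:ℝ) ^ 2 + 1) / (6 * (h:ℝ) ^ 2) = ((N:ℝ) + 1) / (3 * N) := by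
    rw [hNr]
    have : (h:ℝ) ≠ 0 := hh0.ne'
    field_simp
    ring
  rw [e5]
  have e6 : 1 - ((N:ℝ) + 1) / (3 * N) * (N / (N + 1)) = 2 / 3 := by
    field_simp
    ring
  rw [e6]
  have e7 : 2 * (N:ℝ) = ((2 * N : ℕ) : ℝ) := by push_cast; ring
  rw [e7, Real.rpow_natCast, Real.rpow_natCast]
  have e8 : 2 * (h:ℝ) / h = ((2 : ℕ) : ℝ) := by
    push_cast
    field_simp
  rw [e8, Real.rpow_natCast]
  have e9 : (4 * h ^ 2) = 2 * N := by rw [hN]; ring
  rw [e9]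
  have e10 : ((2 * N).choose N : ℝ) = ((2 * N).factorial : ℝ) / ((N.factorial : ℝ) ^ 2) := by
    rw [Nat.choose_eq_factorial_div_factorial (by omega), Nat.cast_div]
    · rw [show 2 * N - N = N by omega]; push_cast; ring
    · exact Nat.factorial_mul_factorial_dvd_factorial (by omega)
    · rw [show 2 * N - N = N by omega]
      positivity
  rw [e10]
  have e11 : 1 + 1 / (2 * (h:ℝ) ^ 2) = ((N:ℝ) + 1) / N := by
    rw [hNr]; field_simp
  rw [e11]
  have f1 : ((2 * N).factorial : ℝ) ≠ 0 := by positivity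
  have f2 : (N.factorial : ℝ) ≠ 0 := by positivity
  have f3 : ((16:ℝ) / 729) ^ N = (1 / 3) ^ (2 * N) * (2 / 3) ^ (2 * N * 2) := by
    rw [pow_mul (1/3 : ℝ) 2 N, show 2 * N * 2 = 4 * N by ring, pow_mul (2/3 : ℝ) 4 N, ← mul_pow]
    norm_num
  rw [f3]
  have f4 : (((N:ℝ) + 1) / (3 * N)) ^ N = (((N:ℝ) + 1) / N) ^ N * (1 / 3) ^ N := by
    rw [← mul_pow]; congr 1; field_simp
  rw [f4]
  rw [show 2 * N = N * 2 by ring]
  simp only [pow_mul, div_pow, mul_pow]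
  field_simp

lemma even_adm (h : ℕ) (hh : 1 ≤ h) :
    Adm (4 * h) h (fun _ : Fin 1 => 2) (fun _ => (2 * (h:ℝ) ^ 2 + 1) / (6 * (h:ℝ) ^ 2)) := by
  have hh0 : (1:ℝ) ≤ h := by exact_mod_cast hh
  refine ⟨hh, fun _ => le_refl _, ?_, fun _ => by positivity, fun _ => ?_, ?_, ?_⟩
  · simp
    field_simp
    norm_num
  · push_cast
    rw [div_le_div_iff₀ (by positivity) (by norm_num)]
    nlinarith
  · simp only [univ_unique, sum_const, card_singleton, one_smul]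
    rw [div_le_one (by positivity)]
    nlinarith
  · push_cast
    nlinarith

theorem const6 (k : ℕ) (hk : 6 ≤ k) : ∃ (n j : ℕ) (q : Fin n → ℕ) (β : Fin n → ℝ),
    Adm (2 * k) j q β ∧ (21 / 20) ^ (k ^ 2) / ((k ^ 2).factorial : ℝ) <
      mB (((2 * k : ℕ) : ℝ) / 2) j q β := by
  rcases Nat.even_or_odd' k with ⟨h, hh | hh⟩
  · have h3 : 3 ≤ h := by omega
    refine ⟨1, h, fun _ => 2, fun _ => (2 * (h:ℝ) ^ 2 + 1) / (6 * (h:ℝ) ^ 2), ?_, ?_⟩
    · rw [show 2 * k = 4 * h by omega]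
      exact even_adm h (by omega)
    · rw [show 2 * k = 4 * h by omega, even_const h (by omega)]
      rw [show k ^ 2 = 4 * h ^ 2 by rw [hh]; ring]
      have := Even6.even6 h h3
      have hf : (0 : ℝ) < ((4 * h ^ 2).factorial : ℝ) := by positivity
      exact div_lt_div_of_pos_right this hf
  · have h3 : 3 ≤ h := by omega
    exact ⟨2, h, q6 k, β6 k, adm6 hh h3, odd6 hh h3⟩

end

end Pool.Agent.H379R2.Const6
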