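import Pool.Agent.H379R2.ConstB
import Pool.Agent.H379R2.StirR

set_option autoImplicit false

/-! The constant `mB` for odd exponents: at least `7/10`. -/

namespace Pool.Agent.H379R2.ConstA

open Real Finset Pool.Agent.H306R2

lemma rat7 {K : ℝ} (h : 7 ≤ K) : 0 < K * (K - 1) / (4 * K - 1) - 0.1732875 * K +
    9 * K / (2 * (4 * K + 7)) - 0.22755 * (1 + 1 / K) - (1 / 2 + 1 / K) * (1.07945 + K / 8) +
    2 / (2 * K - 1) - 1 / (3 * K) - 2 / (3 * K * (K - 1)) + 0.3525 * (1 - 1 / K) := by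
  obtain ⟨t, rfl⟩ : ∃ t : ℝ, K = 7 + t := ⟨K - 7, by ring⟩
  have ht0 : 0 ≤ t := by linarith
  rw [show 4 * (7 + t) - 1 = 27 + 4 * t by ring, show 4 * (7 + t) + 7 = 35 + 4 * t by ring,
    show 2 * (7 + t) - 1 = 13 + 2 * t by ring, show 7 + t - 1 = 6 + t by ring]
  have key : (7 + t) * (6 + t) / (27 + 4 * t) - 0.1732875 * (7 + t) +
    9 * (7 + t) / (2 * (35 + 4 * t)) - 0.22755 * (1 + 1 / (7 + t)) -
    (1 / 2 + 1 / (7 + t)) * (1.07945 + (7 + t) / 8) +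
    2 / (13 + 2 * t) - 1 / (3 * (7 + t)) - 2 / (3 * (7 + t) * (6 + t)) +
    0.3525 * (1 - 1 / (7 + t)) =
    ((489348909/8000) * t ^ 0 + (18440519533/240000) * t ^ 1 + (661680489/20000) * t ^ 2 + (107362581/16000) * t ^ 3 + (16379147/24000) * t ^ 4 + (19893/625) * t ^ 5 + (1137/2500) * t ^ 6) / ((27 + 4 * t) * (35 + 4 * t) * (7 + t) * (13 + 2 * t) * (6 + t)) := by
    field_simp
    ring
  rw [key]
  positivity

lemma log_pi_half : log (π / 2) ≤ 0.4551 := by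
  have h1 : π / 2 ≤ (1.01422 : ℝ) ^ 32 := by
    have := pi_lt_d4
    have h2 : (1.5708 : ℝ) ≤ (1.01422 : ℝ) ^ 32 := by norm_num
    linarith
  have h2 := log_le_log (by positivity) h1
  rw [log_pow] at h2
  have h3 := log_le_sub_one_of_pos (by norm_num : (0 : ℝ) < 1.01422)
  push_cast at h2
  linarith

lemma log_107 : 0.3525 ≤ log (10 / 7) := by
  have h1 : ((1 / 0.98892 : ℝ)) ^ 32 ≤ 10 / 7 := by norm_num
  have h2 := log_le_log (by positivity) h1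
  rw [log_pow, log_div (by norm_num) (by norm_num), log_one] at h2
  have h3 := log_le_sub_one_of_pos (by norm_num : (0 : ℝ) < 0.98892)
  push_cast at h2
  linarith

lemma log_5 : log 5 ≤ 1.6127 := by
  have h1 : (5 : ℝ) ≤ 2 ^ 2 * (1.02829 : ℝ) ^ 8 := by norm_num
  have h2 := log_le_log (by positivity) h1
  rw [log_mul (by norm_num) (by norm_num), log_pow, log_pow] at h2
  have h3 := log_le_sub_one_of_pos (by norm_num : (0 : ℝ) < 1.02829)
  push_cast at h2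
  linarith [log_two_lt_d9]

lemma adm_odd {k j : ℕ} (hk : k = 2 * j + 1) (hj : 1 ≤ j) {b : ℝ} (hb : 0 < b)
    (hbk : b ≤ 1 / (k : ℝ)) : Adm k j (fun _ : Fin 1 => k) (fun _ => b) := by
  have hkr : (k : ℝ) = 2 * j + 1 := by exact_mod_cast hk
  have hj1 : (1 : ℝ) ≤ j := by exact_mod_cast hj
  constructor
  · exact hj
  · intro i; omega
  · rw [Fin.sum_univ_one, hkr]; field_simp
  · intro i; exact hb
  · intro i; exact hbk
  · rw [Fin.sum_univ_one]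
    refine hbk.trans ?_
    rw [hkr, div_le_one (by positivity)]; linarith
  · rw [hkr]; nlinarith

lemma core {k j : ℕ} (hk : k = 2 * j + 1) (hj : 2 ≤ j) (K : ℝ) (hK : K = k)
    (hLB : 0 < K * (K - 1) / (4 * K - 1) - K / 4 * log 2 + 9 * K / (2 * (4 * K + 7)) -
      (1 / 2) * (1 + 1 / K) * log (π / 2) - (1 / 2 + 1 / K) * log K + 2 / (2 * K - 1) -
      1 / (3 * K) - 2 / (3 * K * (K - 1)) + (1 - 1 / K) * log (10 / 7)) :
    (7 / 10) / Gamma ((k : ℝ) ^ 2 / 4 + 1) <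
      mB ((k : ℝ) / 2) j (fun _ : Fin 1 => k) (fun _ => (K + 4) / (K * (2 * K - 1))) := by
  have hkr : K = 2 * j + 1 := by rw [hK]; exact_mod_cast hk
  have hj2 : (2 : ℝ) ≤ j := by exact_mod_cast hj
  have hK5 : 5 ≤ K := by linarith
  have hK0 : 0 < K := by linarith
  have hK1 : 0 < K - 1 := by linarith
  have h2K : 0 < 2 * K - 1 := by linarith
  have h4K : 0 < 4 * K - 1 := by linarith
  have hjK : (j : ℝ) = (K - 1) / 2 := by linarith
  have hj0 : (0 : ℝ) < j := by linarith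
  have n1 : K - 1 ≠ 0 := hK1.ne'
  have n2 : 2 * K - 1 ≠ 0 := h2K.ne'
  have n4 : 4 * K - 1 ≠ 0 := h4K.ne'
  -- the D
  have hm : (K / 2) ^ 2 / K = K / 4 := by field_simp; norm_num
  have hDe : 1 - (K + 4) / (K * (2 * K - 1)) * (K / 4 / (K / 4 + 1)) = (2 * K - 2) / (2 * K - 1) := by
    have : K / 4 / (K / 4 + 1) = K / (K + 4) := by field_simp
    rw [this]
    have e : (K + 4) / (K * (2 * K - 1)) * (K / (K + 4)) = 1 / (2 * K - 1) := by field_simp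
    rw [e, eq_div_iff n2, sub_mul, one_div, inv_mul_cancel₀ n2]
    ring
  have hD0 : 0 < (2 * K - 2) / (2 * K - 1) := div_pos (by linarith) h2K
  have hmB := ConstB.mB_eq (K / 2) j (fun _ : Fin 1 => k) (fun _ => (K + 4) / (K * (2 * K - 1)))
    (by positivity) (fun _ => by positivity)
    (by rw [Fin.sum_univ_one, ← hK, hm, hDe]; exact hD0)
  rw [Fin.sum_univ_one, Fin.sum_univ_one, ← hK, hm, hDe] at hmB
  rw [← hK, hmB]
  have hx : (K / 2) ^ 2 = K ^ 2 / 4 := by ring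
  have hy : K / 2 * (j : ℝ) = K * (K - 1) / 4 := by rw [hjK]; ring
  rw [hx, hy]
  have hg0 : 0 < Gamma (K ^ 2 / 4 + 1) := Gamma_pos_of_pos (by positivity)
  obtain ⟨g, hg⟩ : ∃ g : ℝ, g = log (Gamma (K ^ 2 / 4 + 1)) := ⟨_, rfl⟩
  rw [show (7 / 10 : ℝ) / Gamma (K ^ 2 / 4 + 1) = exp (-log (10 / 7) - g) by
    rw [exp_sub, hg, exp_log hg0, exp_neg, exp_log (by norm_num)]; norm_num, ← hg]
  apply exp_lt_exp.mpr
  -- Stirling
  have s1 := StirR.log_gamma_le (x := K / 4) (by positivity)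
  have s2 := StirR.log_gamma_ge (x := K ^ 2 / 4) (by positivity)
  have s3 := StirR.log_gamma_le (x := K * (K - 1) / 4) (by positivity)
  rw [← hg] at s2
  obtain ⟨l2, hl2⟩ : ∃ l : ℝ, l = log 2 := ⟨_, rfl⟩
  obtain ⟨lk, hlk⟩ : ∃ l : ℝ, l = log K := ⟨_, rfl⟩
  obtain ⟨l1, hl1⟩ : ∃ l : ℝ, l = log (K - 1) := ⟨_, rfl⟩
  obtain ⟨lp, hlp⟩ : ∃ l : ℝ, l = log (π / 2) := ⟨_, rfl⟩
  obtain ⟨ld, hld⟩ : ∃ l : ℝ, l = log (2 * K - 1) := ⟨_, rfl⟩
  obtain ⟨lb, hlb⟩ : ∃ l : ℝ, l = log (K + 4) := ⟨_, rfl⟩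
  obtain ⟨lt, hlt⟩ : ∃ l : ℝ, l = log (10 / 7) := ⟨_, rfl⟩
  have hl4 : log 4 = 2 * l2 := by
    rw [show (4 : ℝ) = 2 ^ 2 by norm_num, log_pow, hl2]; norm_num
  have hpi : log π = lp + l2 := by
    rw [hlp, log_div pi_pos.ne' (by norm_num), hl2]; ring
  have e1 : log (K / 4) = lk - 2 * l2 := by rw [log_div hK0.ne' (by norm_num), hl4, hlk]
  have e2 : log (K ^ 2 / 4) = 2 * lk - 2 * l2 := by
    rw [log_div (by positivity) (by norm_num), hl4, log_pow, hlk]; norm_num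
  have e3 : log (K * (K - 1) / 4) = lk + l1 - 2 * l2 := by
    rw [log_div (by positivity) (by norm_num), hl4, log_mul hK0.ne' hK1.ne', hlk, hl1]
  have e1' : log (2 * π * (K / 4)) = lp + lk := by
    rw [log_mul (by positivity) (by positivity), log_mul (by norm_num) pi_pos.ne', hpi, e1, ← hl2]
    ring
  have e2' : log (2 * π * (K ^ 2 / 4)) = lp + 2 * lk := by
    rw [log_mul (by positivity) (by positivity), log_mul (by norm_num) pi_pos.ne', hpi, e2, ← hl2]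
    ring
  have e3' : log (2 * π * (K * (K - 1) / 4)) = lp + lk + l1 := by
    rw [log_mul (by positivity) (by positivity), log_mul (by norm_num) pi_pos.ne', hpi, e3, ← hl2]
    ring
  rw [e1, e1'] at s1
  rw [e2, e2'] at s2
  rw [e3, e3'] at s3
  have e4 : log ((K + 4) / (K * (2 * K - 1))) = lb - lk - ld := by
    rw [log_div (by positivity) (by positivity), log_mul hK0.ne' h2K.ne', hlb, hlk, hld]; ring
  have e5 : log ((2 * K - 2) / (2 * K - 1)) = l2 + l1 - ld := by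
    rw [log_div (by linarith) h2K.ne', show 2 * K - 2 = 2 * (K - 1) by ring,
      log_mul (by norm_num) hK1.ne', hl2, hl1, hld]
  rw [e4, e5, ← hlt]
  -- elementary log bounds
  have b1 : 2 / (4 * K - 1) ≤ l2 + lk - ld := by
    have := StirR.log_low h2K
    rw [show 1 + (2 * K - 1)⁻¹ = 2 * K / (2 * K - 1) by field_simp; ring,
      log_div (by positivity) h2K.ne', log_mul (by norm_num) hK0.ne'] at this
    rw [show 2 * (2 * K - 1) + 1 = 4 * K - 1 by ring] at this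
    rw [hl2, hlk, hld]; exact this
  have b2 : 18 / (4 * K + 7) ≤ lb + l2 - ld := by
    have h9 : 0 < (2 * K - 1) / 9 := by positivity
    have := StirR.log_low h9
    rw [show 1 + ((2 * K - 1) / 9)⁻¹ = (K + 4) * 2 / (2 * K - 1) by field_simp; ring,
      log_div (by positivity) h2K.ne', log_mul (by positivity) (by norm_num)] at this
    rw [show 2 / (2 * ((2 * K - 1) / 9) + 1) = 18 / (4 * K + 7) by field_simp; ring] at this
    rw [hl2, hlb, hld]; exact this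
  have b3 : 2 / (2 * K - 1) ≤ lk - l1 := by
    have := StirR.log_low hK1
    rw [show 1 + (K - 1)⁻¹ = K / (K - 1) by field_simp; ring, log_div hK0.ne' hK1.ne'] at this
    rw [show 2 * (K - 1) + 1 = 2 * K - 1 by ring] at this
    rw [hlk, hl1]; exact this
  rw [← hl2, ← hlp, ← hlk, ← hlt] at hLB
  obtain ⟨G1, hG1⟩ : ∃ G : ℝ, G = log (Gamma (K / 4 + 1)) := ⟨_, rfl⟩
  obtain ⟨G3, hG3⟩ : ∃ G : ℝ, G = log (Gamma (K * (K - 1) / 4 + 1)) := ⟨_, rfl⟩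
  rw [← hG1] at s1 ⊢
  rw [← hG3] at s3 ⊢
  -- the key inequality multiplied by `(K-1)/K`
  have hu : (0 : ℝ) ≤ 1 - 1 / K := by
    rw [sub_nonneg, div_le_one hK0]; linarith
  have key : (1 - 1 / K) * (-lt - g) < K / 4 * (lb - lk - ld) - G1 +
      2 * (K * (K - 1) / 4) * (l2 + l1 - ld) + g - 2 * G3 := by
    have t1 := mul_le_mul_of_nonneg_left b1 (by positivity : 0 ≤ 2 * (K * (K - 1) / 4))
    have t2 := mul_le_mul_of_nonneg_left b2 (by positivity : 0 ≤ K / 4)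
    have t3 := mul_le_mul_of_nonneg_left s2 (by linarith : 0 ≤ 1 + (1 - 1 / K))
    have i1 : 2 * (K * (K - 1) / 4) * (2 / (4 * K - 1)) = K * (K - 1) / (4 * K - 1) := by
      field_simp; norm_num
    have i2 : K / 4 * (18 / (4 * K + 7)) = 9 * K / (2 * (4 * K + 7)) := by
      field_simp; norm_num
    have i3 : 1 / (12 * (K / 4)) = 1 / (3 * K) := by field_simp; norm_num
    have i4 : 2 * (1 / (12 * (K * (K - 1) / 4))) = 2 / (3 * K * (K - 1)) := by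
      field_simp; norm_num
    rw [i1] at t1
    rw [i2] at t2
    rw [i3] at s1
    have i5 : (1 + (1 - 1 / K)) * (K ^ 2 / 4 * (2 * lk - 2 * l2) - K ^ 2 / 4 + (lp + 2 * lk) / 2) =
        (2 * (K * (K - 1) / 4) + K / 4) * (2 * lk - 2 * l2 - 1) + (1 - 1 / K / 2) * (lp + 2 * lk) := by
      field_simp; ring
    rw [i5] at t3
    have hfin : K / 4 * (lb - lk - ld) - G1 +
      2 * (K * (K - 1) / 4) * (l2 + l1 - ld) + g - 2 * G3 - (1 - 1 / K) * (-lt - g) =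
      (K * (K - 1) / (4 * K - 1) - K / 4 * l2 + 9 * K / (2 * (4 * K + 7)) -
      (1 / 2) * (1 + 1 / K) * lp - (1 / 2 + 1 / K) * lk + 2 / (2 * K - 1) -
      1 / (3 * K) - 2 / (3 * K * (K - 1)) + (1 - 1 / K) * lt) +
      ((2 * (K * (K - 1) / 4)) * (l2 + lk - ld) - K * (K - 1) / (4 * K - 1)) +
      (K / 4 * (lb + l2 - ld) - 9 * K / (2 * (4 * K + 7))) +
      (lk - l1 - 2 / (2 * K - 1)) +
      ((1 + (1 - 1 / K)) * g - ((2 * (K * (K - 1) / 4) + K / 4) * (2 * lk - 2 * l2 - 1) +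
        (1 - 1 / K / 2) * (lp + 2 * lk))) +
      (K / 4 * (lk - 2 * l2) - K / 4 + (lp + lk) / 2 + 1 / (3 * K) - G1) +
      (2 * (K * (K - 1) / 4 * (lk + l1 - 2 * l2) - K * (K - 1) / 4 + (lp + lk + l1) / 2) +
        2 / (3 * K * (K - 1)) - 2 * G3) := by
      ring
    linarith
  have hKj : K / 2 / (j : ℝ) * (1 - 1 / K) = 1 := by
    rw [hjK]; field_simp
  have hKj0 : 0 < K / 2 / (j : ℝ) := by positivity
  have := mul_lt_mul_of_pos_right key hKj0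
  refine lt_of_eq_of_lt ?_ this
  linear_combination (-(-lt - g)) * hKj

lemma lb5 : (0 : ℝ) < 5 * (5 - 1) / (4 * 5 - 1) - 5 / 4 * log 2 + 9 * 5 / (2 * (4 * 5 + 7)) -
      (1 / 2) * (1 + 1 / 5) * log (π / 2) - (1 / 2 + 1 / 5) * log 5 + 2 / (2 * 5 - 1) -
      1 / (3 * 5) - 2 / (3 * 5 * (5 - 1)) + (1 - 1 / 5) * log (10 / 7) := by
  have h1 := log_two_lt_d9
  have h2 := log_pi_half
  have h3 := log_107
  have h4 := log_5
  norm_num at h1 h2 h3 h4 ⊢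
  linarith

lemma lb7 {K : ℝ} (h : 7 ≤ K) : 0 < K * (K - 1) / (4 * K - 1) - K / 4 * log 2 +
      9 * K / (2 * (4 * K + 7)) -
      (1 / 2) * (1 + 1 / K) * log (π / 2) - (1 / 2 + 1 / K) * log K + 2 / (2 * K - 1) -
      1 / (3 * K) - 2 / (3 * K * (K - 1)) + (1 - 1 / K) * log (10 / 7) := by
  have hK0 : 0 < K := by linarith
  have h1 := log_two_lt_d9
  have h2 := log_pi_half
  have h3 := log_107
  have h4 : log K ≤ 1.07945 + K / 8 := by
    have e : log K = 3 * log 2 + log (K / 8) := by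
      rw [log_div hK0.ne' (by norm_num), show (8 : ℝ) = 2 ^ 3 by norm_num, log_pow]
      push_cast; ring
    have := log_le_sub_one_of_pos (x := K / 8) (by positivity)
    linarith
  have h5 := rat7 h
  have h0 : 0 < 1 / K := by positivity
  have hu : (0 : ℝ) ≤ 1 - 1 / K := by
    rw [sub_nonneg, div_le_one hK0]; linarith
  have m1 := mul_le_mul_of_nonneg_left h4 (by linarith : 0 ≤ 1 / 2 + 1 / K)
  have m2 := mul_le_mul_of_nonneg_left h2 (by linarith : 0 ≤ 1 / 2 * (1 + 1 / K))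
  have m3 := mul_le_mul_of_nonneg_left h3 hu
  have m4 := mul_le_mul_of_nonneg_left h1.le (by linarith : 0 ≤ K / 4)
  linarith

/-- odd exponents `k ≥ 5` -/
theorem constA5 {k j : ℕ} (hk : k = 2 * j + 1) (hj : 2 ≤ j) :
    ∃ (n j : ℕ) (q : Fin n → ℕ) (β : Fin n → ℝ), Adm k j q β ∧
      (7 / 10) / Gamma ((k : ℝ) ^ 2 / 4 + 1) < mB ((k : ℝ) / 2) j q β := by
  have hkr : (k : ℝ) = 2 * j + 1 := by exact_mod_cast hk
  have hj2 : (2 : ℝ) ≤ j := by exact_mod_cast hj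
  have hK5 : (5 : ℝ) ≤ k := by linarith
  have hK0 : (0 : ℝ) < k := by linarith
  have h2K : (0 : ℝ) < 2 * k - 1 := by linarith
  refine ⟨1, j, fun _ => k, fun _ => ((k : ℝ) + 4) / (k * (2 * k - 1)), ?_, ?_⟩
  · refine adm_odd hk (by omega) (by positivity) ?_
    rw [div_le_div_iff₀ (by positivity) hK0, one_mul]
    nlinarith
  · apply core hk hj _ rfl
    rcases Nat.lt_or_ge k 7 with h | h
    · have : k = 5 := by omega
      rw [this]
      exact_mod_cast lb5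
    · exact lb7 (by exact_mod_cast h)

/-- `Γ(3/4)^4 ≤ c² π` -/
lemma gamma34 : (3465 / 256 : ℝ) ^ 4 * Gamma (3 / 4) ^ 4 ≤ (315 / 2) ^ 2 * π := by
  have hw : 0 < Gamma (3 / 4) := Gamma_pos_of_pos (by norm_num)
  have h1 := Gamma_mul_add_mul_le_rpow_Gamma_mul_rpow_Gamma (s := 9 / 2) (t := 5) (a := 1 / 2)
    (b := 1 / 2) (by norm_num) (by norm_num) (by norm_num) (by norm_num) (by norm_num)
  have h5 : Gamma 5 = 24 := by
    have := Gamma_nat_eq_factorial 4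
    rw [show ((4 : ℕ) : ℝ) + 1 = 5 by norm_num] at this
    rw [this]; norm_num [Nat.factorial]
  have h92 : Gamma (9 / 2) = 105 / 16 * √π := by
    rw [show (9 / 2 : ℝ) = 7 / 2 + 1 by norm_num, Gamma_add_one (by norm_num),
      show (7 / 2 : ℝ) = 5 / 2 + 1 by norm_num, Gamma_add_one (by norm_num),
      show (5 / 2 : ℝ) = 3 / 2 + 1 by norm_num, Gamma_add_one (by norm_num),
      show (3 / 2 : ℝ) = 1 / 2 + 1 by norm_num, Gamma_add_one (by norm_num), Gamma_one_half_eq]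
    ring
  have h194 : Gamma (1 / 2 * (9 / 2) + 1 / 2 * 5) = 3465 / 256 * Gamma (3 / 4) := by
    rw [show (1 / 2 * (9 / 2) + 1 / 2 * 5 : ℝ) = 15 / 4 + 1 by norm_num,
      Gamma_add_one (by norm_num),
      show (15 / 4 : ℝ) = 11 / 4 + 1 by norm_num, Gamma_add_one (by norm_num),
      show (11 / 4 : ℝ) = 7 / 4 + 1 by norm_num, Gamma_add_one (by norm_num),
      show (7 / 4 : ℝ) = 3 / 4 + 1 by norm_num, Gamma_add_one (by norm_num)]
    ring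
  rw [h194, h5, h92, ← mul_rpow (by positivity) (by norm_num)] at h1
  have h2 := pow_le_pow_left₀ (by positivity) h1 4
  rw [← rpow_natCast ((105 / 16 * √π * 24) ^ (1 / 2 : ℝ)) 4, ← rpow_mul (by positivity),
    show (1 / 2 : ℝ) * ((4 : ℕ) : ℝ) = ((2 : ℕ) : ℝ) by norm_num, rpow_natCast, mul_pow] at h2
  refine h2.trans (le_of_eq ?_)
  have : √π ^ 2 = π := sq_sqrt pi_pos.le
  calc (105 / 16 * √π * 24) ^ 2 = (315 / 2) ^ 2 * √π ^ 2 := by ring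
    _ = _ := by rw [this]

lemma gamma_14 : Gamma (1 / 4) * Gamma (3 / 4) = π * √2 := by
  have h := Gamma_mul_Gamma_one_sub (1 / 4)
  rw [show (1 : ℝ) - 1 / 4 = 3 / 4 by norm_num, show π * (1 / 4) = π / 4 by ring,
    sin_pi_div_four] at h
  rw [h]
  have : √2 * √2 = 2 := mul_self_sqrt (by norm_num)
  field_simp
  linarith

theorem constA3 :
    ∃ (n j : ℕ) (q : Fin n → ℕ) (β : Fin n → ℝ), Adm 3 j q β ∧
      (7 / 10) / Gamma (((3 : ℕ) : ℝ) ^ 2 / 4 + 1) < mB (((3 : ℕ) : ℝ) / 2) j q β := by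
  refine ⟨1, 1, fun _ => 3, fun _ => 1 / 3, adm_odd (by norm_num) le_rfl (by norm_num)
    (by norm_num), ?_⟩
  unfold mB
  rw [Fin.prod_univ_one, Fin.sum_univ_one]
  obtain ⟨w, hw⟩ : ∃ w : ℝ, w = Gamma (3 / 4) := ⟨_, rfl⟩
  obtain ⟨v, hv⟩ : ∃ v : ℝ, v = Gamma (1 / 4) := ⟨_, rfl⟩
  have hw0 : 0 < w := by rw [hw]; exact Gamma_pos_of_pos (by norm_num)
  have hv0 : 0 < v := by rw [hv]; exact Gamma_pos_of_pos (by norm_num)
  have hvw : v * w = π * √2 := by rw [hv, hw]; exact gamma_14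
  have hw4 := gamma34
  rw [← hw] at hw4
  have g1 : Gamma ((((3 : ℕ) : ℝ) / 2) ^ 2 / ((3 : ℕ) : ℝ) + 1) = 3 / 4 * w := by
    rw [show (((3 : ℕ) : ℝ) / 2) ^ 2 / ((3 : ℕ) : ℝ) + 1 = 3 / 4 + 1 by norm_num,
      Gamma_add_one (by norm_num), hw]
  have g2' : Gamma (9 / 4 + 1) = 45 / 64 * v := by
    rw [Gamma_add_one (by norm_num),
      show (9 / 4 : ℝ) = 5 / 4 + 1 by norm_num, Gamma_add_one (by norm_num),
      show (5 / 4 : ℝ) = 1 / 4 + 1 by norm_num, Gamma_add_one (by norm_num), hv]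
    ring
  have g2 : Gamma (((3 : ℕ) : ℝ) ^ 2 / 4 + 1) = 45 / 64 * v := by
    rw [← g2']; norm_num
  have g3 : Gamma ((((3 : ℕ) : ℝ) / 2) ^ 2 + 1) = 45 / 64 * v := by
    rw [← g2']; norm_num
  have g4 : Gamma (((3 : ℕ) : ℝ) / 2 * ((1 : ℕ) : ℝ) + 1) = 3 / 4 * √π := by
    rw [show ((3 : ℕ) : ℝ) / 2 * ((1 : ℕ) : ℝ) + 1 = 3 / 2 + 1 by norm_num,
      Gamma_add_one (by norm_num),
      show (3 / 2 : ℝ) = 1 / 2 + 1 by norm_num, Gamma_add_one (by norm_num), Gamma_one_half_eq]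
    ring
  rw [g1, g2, g3, g4]
  have e1 : (1 - 1 / 3 * ((((3 : ℕ) : ℝ) / 2) ^ 2 / ((3 : ℕ) : ℝ) /
      ((((3 : ℕ) : ℝ) / 2) ^ 2 / ((3 : ℕ) : ℝ) + 1))) ^ (2 * (((3 : ℕ) : ℝ) / 2 * ((1 : ℕ) : ℝ))) =
      (6 / 7) ^ 3 := by
    rw [show (2 * (((3 : ℕ) : ℝ) / 2 * ((1 : ℕ) : ℝ))) = ((3 : ℕ) : ℝ) by norm_num, rpow_natCast]
    norm_num
  rw [e1]
  have e2 : (((3 : ℕ) : ℝ) / 2) ^ 2 / ((3 : ℕ) : ℝ) = 3 / 4 := by norm_num
  rw [e2]
  obtain ⟨A, hA⟩ : ∃ A : ℝ, A = (1 / 3 : ℝ) ^ (3 / 4 : ℝ) / (3 / 4 * w) * (6 / 7) ^ 3 *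
    (45 / 64 * v) / (3 / 4 * √π) ^ 2 := ⟨_, rfl⟩
  rw [← hA]
  have hA0 : 0 < A := by rw [hA]; positivity
  apply lt_of_pow_lt_pow_left₀ 8 (by positivity)
  rw [← rpow_natCast (A ^ (((3 : ℕ) : ℝ) / 2 / ((1 : ℕ) : ℝ))) 8, ← rpow_mul hA0.le,
    show ((3 : ℕ) : ℝ) / 2 / ((1 : ℕ) : ℝ) * ((8 : ℕ) : ℝ) = ((12 : ℕ) : ℝ) by norm_num,
    rpow_natCast, div_pow, div_lt_iff₀ (by positivity)]
  have h3 : ((1 / 3 : ℝ) ^ (3 / 4 : ℝ)) ^ 12 = (1 / 3) ^ 9 := by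
    rw [← rpow_natCast ((1 / 3 : ℝ) ^ (3 / 4 : ℝ)) 12, ← rpow_mul (by norm_num),
      show (3 / 4 : ℝ) * ((12 : ℕ) : ℝ) = ((9 : ℕ) : ℝ) by norm_num, rpow_natCast]
  have hpi2 : √π ^ 24 = π ^ 12 := by
    rw [show (24 : ℕ) = 2 * 12 by norm_num, pow_mul, sq_sqrt pi_pos.le]
  have h22 : √2 ^ 20 = (2 : ℝ) ^ 10 := by
    rw [show (20 : ℕ) = 2 * 10 by norm_num, pow_mul, sq_sqrt (by norm_num)]
  have e3 : A ^ 12 * (45 / 64 * v) ^ 8 =
      (1 / 3) ^ 9 * (4 / 3) ^ 36 * (6 / 7) ^ 36 * (45 / 64) ^ 20 * v ^ 20 / (w ^ 12 * π ^ 12) := by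
    rw [hA]
    have : ((1 / 3 : ℝ) ^ (3 / 4 : ℝ) / (3 / 4 * w) * (6 / 7) ^ 3 *
      (45 / 64 * v) / (3 / 4 * √π) ^ 2) ^ 12 * (45 / 64 * v) ^ 8 =
      ((1 / 3 : ℝ) ^ (3 / 4 : ℝ)) ^ 12 * (4 / 3) ^ 36 * (6 / 7) ^ 36 * (45 / 64) ^ 20 * v ^ 20 /
        (w ^ 12 * √π ^ 24) := by
      field_simp
    rw [this, h3, hpi2]
  rw [e3, lt_div_iff₀ (by positivity)]
  have e4 : v ^ 20 * w ^ 20 = π ^ 20 * 2 ^ 10 := by
    rw [← mul_pow, hvw, mul_pow, h22]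
  have hw32 : (3465 / 256 : ℝ) ^ 32 * w ^ 32 ≤ (315 / 2) ^ 16 * π ^ 8 := by
    have := pow_le_pow_left₀ (by positivity) hw4 8
    calc (3465 / 256 : ℝ) ^ 32 * w ^ 32 = ((3465 / 256 : ℝ) ^ 4 * w ^ 4) ^ 8 := by ring
      _ ≤ ((315 / 2) ^ 2 * π) ^ 8 := this
      _ = _ := by ring
  -- multiply by `w^20`
  have hw20 : 0 < w ^ 20 := by positivity
  refine lt_of_mul_lt_mul_right ?_ hw20.le
  calc (7 / 10) ^ 8 * (w ^ 12 * π ^ 12) * w ^ 20 = (7 / 10) ^ 8 * w ^ 32 * π ^ 12 := by ring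
    _ ≤ (7 / 10) ^ 8 * ((315 / 2) ^ 16 * π ^ 8 / (3465 / 256 : ℝ) ^ 32) * π ^ 12 := by
        apply mul_le_mul_of_nonneg_right _ (by positivity)
        apply mul_le_mul_of_nonneg_left _ (by positivity)
        rw [le_div_iff₀ (by positivity), mul_comm]
        exact hw32
    _ = ((7 / 10) ^ 8 * (315 / 2) ^ 16 / (3465 / 256 : ℝ) ^ 32) * π ^ 20 := by ring
    _ < ((1 / 3) ^ 9 * (4 / 3) ^ 36 * (6 / 7) ^ 36 * (45 / 64) ^ 20 * 2 ^ 10) * π ^ 20 := by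
        apply mul_lt_mul_of_pos_right _ (by positivity)
        norm_num
    _ = (1 / 3) ^ 9 * (4 / 3) ^ 36 * (6 / 7) ^ 36 * (45 / 64) ^ 20 * (v ^ 20 * w ^ 20) := by
        rw [e4]; ring
    _ = _ := by ring

/-- TASK constA: odd exponents. -/
theorem constA (k : ℕ) (hk : Odd k) (h3 : 3 ≤ k) :
    ∃ (n j : ℕ) (q : Fin n → ℕ) (β : Fin n → ℝ), Adm k j q β ∧
      (7 / 10) / Real.Gamma ((k : ℝ) ^ 2 / 4 + 1) < mB ((k : ℝ) / 2) j q β := by
  obtain ⟨j, hj⟩ := hk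
  rcases Nat.lt_or_ge k 5 with h | h
  · have : k = 3 := by omega
    subst this
    exact constA3
  · exact constA5 hj (by omega)

end Pool.Agent.H379R2.ConstA
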