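import Pool.Agent.H379R2.ConstB

set_option autoImplicit false

/-! The constant `mB` for all large rational exponents: base tending to `4/e`. -/

namespace Pool.Agent.H379R2.ConstR

open Real Finset Pool.Agent.H306R2

/-- Greedy expansion into unit fractions. -/
lemma egy : ∀ p : ℕ, ∀ q m : ℕ, 3 ≤ m → p * m < q → ∃ (r : ℕ) (e : Fin r → ℕ),
    (∀ i, m < e i) ∧ ∑ i, 1 / (e i : ℝ) = (p : ℝ) / q ∧ ∑ i, 1 / √(e i : ℝ) ≤ 3 / √(m : ℝ) := by
  intro p
  induction p using Nat.strong_induction_on with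
  | _ p ih =>
    intro q m hm hpq
    rcases Nat.eq_zero_or_pos p with hp | hp
    · refine ⟨0, fun i => i.elim0, fun i => i.elim0, ?_, ?_⟩
      · simp [hp]
      · rw [Finset.univ_eq_empty, Finset.sum_empty]; positivity
    · -- n = ⌈q/p⌉
      obtain ⟨n, hn1, hn2⟩ : ∃ n : ℕ, q ≤ (n + 1) * p ∧ n * p < q := by
        refine ⟨(q - 1) / p, ?_, ?_⟩
        · have := Nat.lt_div_mul_add (a := q - 1) hp
          have h2 : q ≤ (q - 1) / p * p + p := by omega
          linarith [h2]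
        · have := Nat.div_mul_le_self (q - 1) p
          have : 0 < q := by omega
          omega
      have hmn : m ≤ n := by
        by_contra h
        push Not at h
        have : (n + 1) * p ≤ m * p := Nat.mul_le_mul_right p h
        have : (n + 1) * p ≤ p * m := by rw [mul_comm p m]; exact this
        omega
      have hq0 : 0 < q := by omega
      have hp' : (n + 1) * p - q < p := by
        have : (n + 1) * p = n * p + p := by ring
        omega
      have hm' : 3 ≤ (n + 1) * n := by nlinarith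
      have hpq' : ((n + 1) * p - q) * ((n + 1) * n) < (n + 1) * q := by
        have h1 : ((n + 1) * p - q) * n < q := by
          have h2 : ((n + 1) * p - q) * n = (n + 1) * p * n - q * n := Nat.sub_mul _ _ _
          rw [h2]
          have h3 : (n + 1) * p * n = (n * p) * (n + 1) := by ring
          have h4 : (n * p) * (n + 1) < q * (n + 1) := Nat.mul_lt_mul_of_pos_right hn2 (by omega)
          have h5 : q * (n + 1) = q * n + q := by ring
          omega
        calc ((n + 1) * p - q) * ((n + 1) * n) = (n + 1) * (((n + 1) * p - q) * n) := by ring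
          _ < (n + 1) * q := Nat.mul_lt_mul_of_pos_left h1 (by omega)
      obtain ⟨r, e, he1, he2, he3⟩ := ih _ hp' ((n + 1) * q) ((n + 1) * n) hm' hpq'
      refine ⟨r + 1, Fin.cons (n + 1) e, ?_, ?_, ?_⟩
      · intro i
        refine Fin.cases ?_ (fun i => ?_) i
        · simp only [Fin.cons_zero]; omega
        · simp only [Fin.cons_succ]
          have := he1 i
          have : m ≤ (n + 1) * n := by nlinarith
          omega
      · rw [Fin.sum_univ_succ]
        simp only [Fin.cons_zero, Fin.cons_succ]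
        rw [he2, Nat.cast_sub hn1]
        push_cast
        have h1 : (q : ℝ) ≠ 0 := by positivity
        field_simp
        ring
      · rw [Fin.sum_univ_succ]
        simp only [Fin.cons_zero, Fin.cons_succ]
        have hn3 : (3 : ℝ) ≤ n := by exact_mod_cast hm.trans hmn
        have hmn' : (m : ℝ) ≤ n := by exact_mod_cast hmn
        have hm0 : (0 : ℝ) < m := by exact_mod_cast (by omega : 0 < m)
        push_cast at he3 ⊢
        have h1 : √(((n : ℝ) + 1) * n) = √((n : ℝ) + 1) * √(n : ℝ) := sqrt_mul (by positivity) _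
        have h2 : (3 / 2 : ℝ) ≤ √(n : ℝ) := by
          apply le_sqrt_of_sq_le; linarith
        have h3 : 0 < √((n : ℝ) + 1) := sqrt_pos.mpr (by positivity)
        have h4 : 3 / √(((n : ℝ) + 1) * n) ≤ 2 / √((n : ℝ) + 1) := by
          rw [h1, div_le_div_iff₀ (by positivity) h3]
          nlinarith
        have h5 : 3 / √((n : ℝ) + 1) ≤ 3 / √(m : ℝ) := by
          apply div_le_div_of_nonneg_left (by norm_num) (sqrt_pos.mpr hm0)
          exact sqrt_le_sqrt (by linarith)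
        have h6 : 1 / √((n : ℝ) + 1) + 2 / √((n : ℝ) + 1) = 3 / √((n : ℝ) + 1) := by
          rw [← add_div]; norm_num
        linarith

lemma gam_le {t : ℝ} (ht : 0 ≤ t) : log (Gamma (t + 1)) ≤ t * log (t + 1) := by
  have key : ∀ n : ℕ, ∀ t : ℝ, 0 ≤ t → t ≤ n + 1 → log (Gamma (t + 1)) ≤ t * log (t + 1) := by
    intro n
    induction n with
    | zero =>
      intro t ht ht1
      have ht1' : 0 ≤ 1 - t := by norm_num at ht1; linarith
      have hc := convexOn_log_Gamma.2 (show (1 : ℝ) ∈ Set.Ioi 0 by norm_num)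
        (show (2 : ℝ) ∈ Set.Ioi 0 by norm_num) ht1' ht (by ring)
      simp only [Function.comp_apply, smul_eq_mul] at hc
      rw [Gamma_one, Gamma_two, log_one] at hc
      rw [show (1 - t) * 1 + t * 2 = t + 1 by ring] at hc
      have : 0 ≤ t * log (t + 1) := mul_nonneg ht (log_nonneg (by linarith))
      linarith
    | succ n ih =>
      intro t ht htn
      rcases le_or_gt t (n + 1) with h | h
      · exact ih t ht h
      · have hn0 : (0 : ℝ) ≤ n := Nat.cast_nonneg n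
        have ht0 : 0 < t := by linarith
        have h1 := ih (t - 1) (by linarith) (by push_cast at htn; linarith)
        rw [show t - 1 + 1 = t by ring] at h1
        rw [Gamma_add_one ht0.ne', log_mul ht0.ne' (Gamma_pos_of_pos ht0).ne']
        have h2 : log t ≤ log (t + 1) := log_le_log ht0 (by linarith)
        have h3 := mul_le_mul_of_nonneg_left h2 ht
        linarith
  obtain ⟨n, hn⟩ := exists_nat_ge t
  exact key n t ht (by linarith)

/-- the exponents -/
def qR (L r : ℕ) (e : Fin r → ℕ) : Fin (L + r) → ℕ :=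
  Fin.append (fun i : Fin L => 2 ^ ((i : ℕ) + 1)) e

/-- the weights -/
noncomputable def βR (L r : ℕ) (e : Fin r → ℕ) : Fin (L + r) → ℝ :=
  Fin.append (fun i : Fin L => (1 / 2 : ℝ) ^ ((i : ℕ) + 1) / (1 + (1 / 2) ^ L))
    (fun i : Fin r => 1 / (e i : ℝ))

/-- The main estimate. -/
lemma main_est {κ : ℝ} {L r j : ℕ} (e : Fin r → ℕ) (hj : 1 ≤ j) (hjκ : (j : ℝ) ≤ (1 / 2 : ℝ) ^ L * κ)
    (hjκ' : (1 / 2 : ℝ) ^ L * κ - 1 ≤ j) (hκL : 2 * 2 ^ L ≤ κ)
    (he : ∀ i, κ < e i) (hes : ∑ i, 1 / (e i : ℝ) ≤ 1 / κ) (hesq : ∑ i, 1 / √(e i : ℝ) ≤ 5 / √κ)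
    (hβ : ∀ i, 0 < βR L r e i)
    (lc η : ℝ) (hη : 0 < η) (hlc : lc = 2 * log 2 - 1 - η)
    (hP : (1 / 2 : ℝ) ^ L ≤ η / 2)
    (hbig : (((1 + η) + 5 * (L + 4) + 24) : ℝ) ≤ (1 / 2 : ℝ) ^ L * η / 2 * √κ) :
    exp (lc * κ ^ 2) / Gamma (κ ^ 2 + 1) ≤ mB κ j (qR L r e) (βR L r e) := by
  obtain ⟨P, hPdef⟩ : ∃ P : ℝ, P = (1 / 2 : ℝ) ^ L := ⟨_, rfl⟩
  obtain ⟨x, hx⟩ : ∃ x : ℝ, x = κ ^ 2 := ⟨_, rfl⟩
  obtain ⟨y, hy⟩ : ∃ y : ℝ, y = κ * j := ⟨_, rfl⟩
  rw [← hPdef] at hjκ hjκ' hP hbig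
  have hPL : P = 1 / 2 ^ L := by rw [hPdef, div_pow, one_pow]
  have hP0 : 0 < P := by rw [hPdef]; positivity
  have hP1 : P ≤ 1 := by rw [hPdef]; exact pow_le_one₀ (by norm_num) (by norm_num)
  have h2L1 : (1 : ℝ) ≤ 2 ^ L := one_le_pow₀ (by norm_num)
  have hPP : P * 2 ^ L = 1 := by rw [hPL]; field_simp
  have hκ2 : 2 ≤ κ := by linarith
  have hκ0 : 0 < κ := by linarith
  have hκ1 : 1 ≤ κ := by linarith
  have hPκ : 2 ≤ P * κ := by
    have := mul_le_mul_of_nonneg_left hκL hP0.le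
    linarith
  have hx0 : 0 < x := by rw [hx]; positivity
  have hx4 : 4 ≤ x := by
    rw [hx]
    have := pow_le_pow_left₀ (by norm_num) hκ2 2
    linarith
  have hκx : κ ≤ x := by rw [hx, sq]; exact le_mul_of_one_le_left hκ0.le hκ1
  have hx1 : 1 ≤ x := by linarith
  have hj1 : (1 : ℝ) ≤ j := by exact_mod_cast hj
  have hy0 : 0 < y := by rw [hy]; positivity
  have hy1 : 1 ≤ y := by rw [hy]; exact one_le_mul_of_one_le_of_one_le hκ1 hj1
  have hyPx : y ≤ P * x := by
    rw [hy, hx]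
    have := mul_le_mul_of_nonneg_left hjκ hκ0.le
    linarith
  have hyPx' : P * x - κ ≤ y := by
    rw [hy, hx]
    have := mul_le_mul_of_nonneg_left hjκ' hκ0.le
    linarith
  have hyx : y ≤ x := hyPx.trans (mul_le_of_le_one_left hx0.le hP1)
  have hlogx0 : 0 ≤ log x := log_nonneg hx1
  have hlogx1 : 1 ≤ log x := by
    rw [le_log_iff_exp_le hx0]
    linarith [exp_one_lt_d9]
  obtain ⟨Λ, hΛ⟩ : ∃ Λ : ℝ, Λ = 2 * log (x + 1) + 1 := ⟨_, rfl⟩
  have hΛk : Λ ≤ 5 * κ := by
    have : x + 1 ≤ (κ + 1) ^ 2 := by rw [hx]; linarith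
    have h2 := log_le_log (by linarith) this
    rw [log_pow] at h2
    push_cast at h2
    have h3 := log_le_sub_one_of_pos (by linarith : 0 < κ + 1)
    linarith
  have hΛ0 : 0 ≤ Λ := by
    have := log_nonneg (by linarith : (1 : ℝ) ≤ x + 1)
    linarith
  have hup : ∀ z : ℝ, 1 ≤ z → z ≤ x → log (Gamma (z + 1)) ≤ z * log z - z + Λ := by
    intro z hz hzx
    have h1 := ConstB.gamma_upper hz
    have h2 : log (z + 1) ≤ log (x + 1) := log_le_log (by linarith) (by linarith)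
    linarith
  have hgx : x * log x - x - Λ ≤ log (Gamma (x + 1)) := by
    have h1 := ConstB.gamma_lower hx1
    have h2 : 0 ≤ log (x + 1) := log_nonneg (by linarith)
    linarith
  have he0 : ∀ i, (0 : ℝ) < e i := fun i => hκ0.trans (he i)
  -- the D term
  obtain ⟨ρ, hρ⟩ : ∃ ρ : ℝ, ρ = ∑ i, 1 / (e i : ℝ) := ⟨_, rfl⟩
  have hρ0 : 0 ≤ ρ := by rw [hρ]; exact Finset.sum_nonneg fun i _ => by positivity
  rw [← hρ] at hes
  obtain ⟨D, hD⟩ : ∃ D : ℝ, D = 1 - ∑ i, βR L r e i *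
      (κ ^ 2 / qR L r e i / (κ ^ 2 / qR L r e i + 1)) := ⟨_, rfl⟩
  have hDlow : 2 * P / (1 + P) * (1 - ρ / P) ≤ D := by
    have h1 : ∑ i, βR L r e i * (κ ^ 2 / qR L r e i / (κ ^ 2 / qR L r e i + 1)) ≤
        ∑ i, βR L r e i := by
      apply Finset.sum_le_sum
      intro i _
      have h2 : κ ^ 2 / (qR L r e i : ℝ) / (κ ^ 2 / qR L r e i + 1) ≤ 1 := by
        rw [div_le_one (by positivity)]; linarith
      have := mul_le_mul_of_nonneg_left h2 (hβ i).le
      linarith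
    have h3 : ∑ i, βR L r e i = (1 - P) / (1 + P) + ρ := by
      rw [Fin.sum_univ_add]
      simp only [βR, Fin.append_left, Fin.append_right]
      rw [← Finset.sum_div, ConstB.geo, ← hPdef, hρ]
    rw [h3] at h1
    have h4 : 2 * P / (1 + P) * (1 - ρ / P) ≤ 1 - ((1 - P) / (1 + P) + ρ) := by
      have h5 : 1 - ((1 - P) / (1 + P) + ρ) = 2 * P / (1 + P) - P * (ρ / P) := by
        field_simp; ring
      rw [h5]
      have h6 : P ≤ 2 * P / (1 + P) := by
        rw [le_div_iff₀ (by positivity)]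
        linarith [mul_le_mul_of_nonneg_left hP1 hP0.le]
      have h7 : 0 ≤ ρ / P := by positivity
      linarith [mul_le_mul_of_nonneg_right h6 h7]
    linarith
  have hρP : ρ / P ≤ 1 / 2 := by
    rw [div_le_iff₀ hP0]
    refine hes.trans ?_
    rw [div_le_iff₀ hκ0]
    linarith
  have hD0 : 0 < D := lt_of_lt_of_le (mul_pos (by positivity) (by linarith)) hDlow
  have hlogD : log 2 + log P - log (1 + P) - 2 * (ρ / P) ≤ log D := by
    have h1 := log_le_log (mul_pos (by positivity) (by linarith)) hDlow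
    rw [log_mul (by positivity) (by linarith), log_div (by positivity) (by positivity),
      log_mul (by norm_num) hP0.ne'] at h1
    have h2 : 1 - (1 - ρ / P)⁻¹ ≤ log (1 - ρ / P) :=
      one_sub_inv_le_log_of_pos (by linarith)
    have h3 : (1 - ρ / P)⁻¹ ≤ 1 + 2 * (ρ / P) := by
      rw [inv_le_iff_one_le_mul₀ (by linarith)]
      have : 0 ≤ ρ / P := by positivity
      linarith [mul_le_mul_of_nonneg_left hρP this]
    linarith
  have hyD : 2 * y * (log 2 + log P - log (1 + P)) - 4 * κ ≤ 2 * y * log D := by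
    have h1 := mul_le_mul_of_nonneg_left hlogD (by linarith : 0 ≤ 2 * y)
    have h2 : 2 * y * (2 * (ρ / P)) ≤ 4 * κ := by
      have h3 : y * (ρ / P) ≤ P * x * (ρ / P) :=
        mul_le_mul_of_nonneg_right hyPx (by positivity)
      have h4 : P * x * (ρ / P) = x * ρ := by field_simp
      have h5 : x * ρ ≤ x * (1 / κ) := mul_le_mul_of_nonneg_left hes hx0.le
      have h6 : x * (1 / κ) = κ := by rw [hx]; field_simp
      linarith
    linarith
  -- the sum
  obtain ⟨S, hS⟩ : ∃ S : ℝ, S = ∑ i, (κ ^ 2 / qR L r e i * log (βR L r e i) -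
      log (Gamma (κ ^ 2 / qR L r e i + 1))) := ⟨_, rfl⟩
  have hsq0 : 0 < √κ := sqrt_pos.mpr hκ0
  have hsqκ : √κ * √κ = κ := mul_self_sqrt hκ0.le
  have hsq1 : 1 ≤ √κ := by
    rw [← sqrt_one]; exact sqrt_le_sqrt hκ1
  have hSlow : x * (1 - P) * (1 - log (1 + P) - log x) - L * Λ - 20 * κ * √κ ≤ S := by
    rw [hS, Fin.sum_univ_add]
    simp only [qR, βR, Fin.append_left, Fin.append_right]
    have h1 : x * (1 - P) * (1 - log (1 + P) - log x) - L * Λ ≤
        ∑ i : Fin L, (κ ^ 2 / ((2 ^ ((i : ℕ) + 1) : ℕ) : ℝ) *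
          log ((1 / 2 : ℝ) ^ ((i : ℕ) + 1) / (1 + (1 / 2) ^ L)) -
          log (Gamma (κ ^ 2 / ((2 ^ ((i : ℕ) + 1) : ℕ) : ℝ) + 1))) := by
      have h2 : x * (1 - P) * (1 - log (1 + P) - log x) - L * Λ =
          ∑ i : Fin L, ((1 / 2 : ℝ) ^ ((i : ℕ) + 1) * (x * (1 - log (1 + P) - log x)) - Λ) := by
        rw [Finset.sum_sub_distrib, ← Finset.sum_mul, ConstB.geo, ← hPdef, Finset.sum_const,
          Finset.card_univ, Fintype.card_fin, nsmul_eq_mul]
        ring
      rw [h2]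
      apply Finset.sum_le_sum
      intro i _
      push_cast
      rw [← hPdef, ← hx]
      have hi : (2 : ℝ) ^ ((i : ℕ) + 1) ≤ 2 ^ L :=
        pow_le_pow_right₀ (by norm_num) i.2
      have hi0 : (0 : ℝ) < 2 ^ ((i : ℕ) + 1) := by positivity
      have hi1 : (1 : ℝ) ≤ 2 ^ ((i : ℕ) + 1) := one_le_pow₀ (by norm_num)
      have hm1 : 1 ≤ x / 2 ^ ((i : ℕ) + 1) := by
        rw [le_div_iff₀ hi0, one_mul]
        linarith
      have hmx : x / 2 ^ ((i : ℕ) + 1) ≤ x := div_le_self hx0.le hi1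
      have h3 := hup _ hm1 hmx
      have h4 : log ((1 / 2 : ℝ) ^ ((i : ℕ) + 1) / (1 + P)) =
          -log (2 ^ ((i : ℕ) + 1)) - log (1 + P) := by
        rw [div_pow, one_pow, log_div (by positivity) (by positivity), one_div, log_inv]
      have h5 : log (x / 2 ^ ((i : ℕ) + 1)) = log x - log (2 ^ ((i : ℕ) + 1)) :=
        log_div hx0.ne' hi0.ne'
      rw [h5] at h3
      rw [h4]
      have h6 : (1 / 2 : ℝ) ^ ((i : ℕ) + 1) * (x * (1 - log (1 + P) - log x)) =
          x / 2 ^ ((i : ℕ) + 1) * (1 - log (1 + P) - log x) := by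
        rw [div_pow, one_pow]; ring
      rw [h6]
      linarith
    have h7 : -(20 * κ * √κ) ≤ ∑ i : Fin r,
        (κ ^ 2 / (e i : ℝ) * log (1 / (e i : ℝ)) - log (Gamma (κ ^ 2 / (e i : ℝ) + 1))) := by
      have h8 : ∀ i : Fin r, -(4 * x) * (1 / √(e i : ℝ)) ≤
          κ ^ 2 / (e i : ℝ) * log (1 / (e i : ℝ)) - log (Gamma (κ ^ 2 / (e i : ℝ) + 1)) := by
        intro i
        rw [← hx]
        obtain ⟨E, hE⟩ : ∃ E : ℝ, E = e i := ⟨_, rfl⟩
        have hE0 : 0 < E := by rw [hE]; exact he0 i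
        have hEκ : κ < E := by rw [hE]; exact he i
        rw [← hE]
        have hxE0 : 0 ≤ x / E := by positivity
        have g1 := gam_le hxE0
        have g2 : x / E + 1 ≤ E + 1 := by
          have : x / E ≤ E := by
            rw [div_le_iff₀ hE0, hx, sq]
            exact mul_le_mul hEκ.le hEκ.le hκ0.le hE0.le
          linarith
        have g3 : log (x / E + 1) ≤ log (E + 1) := log_le_log (by positivity) g2
        have g4 : log (E + 1) ≤ 2 * √E := by
          have h1 : E + 1 ≤ (√E + 1) ^ 2 := by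
            have := sq_sqrt hE0.le
            have := sqrt_nonneg E
            nlinarith
          have h2 := log_le_log (by linarith) h1
          rw [log_pow] at h2
          have h3 := log_le_sub_one_of_pos (by positivity : 0 < √E + 1)
          push_cast at h2
          linarith
        have g5 : log E ≤ log (E + 1) := log_le_log hE0 (by linarith)
        rw [one_div E, log_inv]
        have g6 : x / E * log E ≤ x / E * (2 * √E) :=
          mul_le_mul_of_nonneg_left (g5.trans g4) hxE0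
        have g7 : x / E * log (x / E + 1) ≤ x / E * (2 * √E) :=
          mul_le_mul_of_nonneg_left (g3.trans g4) hxE0
        have g8 : x / E * √E = x * (1 / √E) := by
          have h1 : √E * √E = E := mul_self_sqrt hE0.le
          have h2 : 0 < √E := sqrt_pos.mpr hE0
          rw [div_mul_eq_mul_div, mul_one_div, div_eq_div_iff hE0.ne' h2.ne']
          linear_combination x * h1
        linarith
      have h9 : ∑ i : Fin r, -(4 * x) * (1 / √(e i : ℝ)) ≤ ∑ i : Fin r,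
          (κ ^ 2 / (e i : ℝ) * log (1 / (e i : ℝ)) - log (Gamma (κ ^ 2 / (e i : ℝ) + 1))) :=
        Finset.sum_le_sum fun i _ => h8 i
      rw [← Finset.mul_sum] at h9
      have h10 := mul_le_mul_of_nonneg_left hesq (by positivity : 0 ≤ 4 * x)
      have h11 : 4 * x * (5 / √κ) = 20 * κ * √κ := by
        rw [hx]
        rw [mul_div_assoc', div_eq_iff hsq0.ne']
        linear_combination (-20 * κ) * hsqκ
      linarith
    linarith
  -- final
  have hD' := hD0
  rw [hD] at hD'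
  rw [ConstB.mB_eq κ j (qR L r e) (βR L r e) hκ0 hβ hD', ← hD, ← hS, ← hx, ← hy]
  have hg0 : 0 < Gamma (x + 1) := Gamma_pos_of_pos (by linarith)
  have hkj : κ / j = x / y := by
    rw [hx, hy]; field_simp
  rw [hkj, show exp (lc * x) / Gamma (x + 1) = exp (lc * x - log (Gamma (x + 1))) by
    rw [exp_sub, exp_log hg0]]
  apply exp_le_exp.mpr
  obtain ⟨g, hg⟩ : ∃ g : ℝ, g = log (Gamma (x + 1)) := ⟨_, rfl⟩
  rw [← hg] at hgx ⊢
  have hgy := hup y hy1 hyx
  have hylog : y * log y ≤ y * (log P + log x) := by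
    apply mul_le_mul_of_nonneg_left _ hy0.le
    rw [← log_mul hP0.ne' hx0.ne']
    exact log_le_log hy0 hyPx
  have hlog1P : log (1 + P) ≤ P := by
    have := log_le_sub_one_of_pos (by linarith : 0 < 1 + P)
    linarith
  have hlog1P0 : 0 ≤ log (1 + P) := log_nonneg (by linarith)
  -- key inequality
  have key : y * lc - y / x * g ≤
      S + 2 * y * log D + g - 2 * log (Gamma (y + 1)) := by
    have hyx' : y / x ≤ 1 := by rw [div_le_one hx0]; exact hyx
    have hyx0 : 0 ≤ y / x := by positivity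
    have hg2 : (x + y) * (log x - 1) - 2 * Λ ≤ g + y / x * g := by
      have h1 : y / x * (x * log x - x - Λ) ≤ y / x * g := mul_le_mul_of_nonneg_left hgx hyx0
      have h2 : y / x * (x * log x - x - Λ) = y * (log x - 1) - y / x * Λ := by field_simp
      have h3 : y / x * Λ ≤ 1 * Λ := mul_le_mul_of_nonneg_right hyx' hΛ0
      linarith
    have hE : κ * (1 + η) + (L * Λ + 20 * κ * √κ + 4 * κ + 4 * Λ) ≤
        P * x * η / 2 := by
      have h3 : (0 : ℝ) ≤ L := Nat.cast_nonneg L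
      have h1 : (L + 4) * Λ ≤ (L + 4) * (5 * κ) := mul_le_mul_of_nonneg_left hΛk (by linarith)
      have h2 := mul_le_mul_of_nonneg_right hbig (by positivity : 0 ≤ κ * √κ)
      have h4 : P * η / 2 * √κ * (κ * √κ) = P * x * η / 2 := by
        rw [hx]; linear_combination (P * η / 2 * κ) * hsqκ
      rw [h4] at h2
      have h5 : κ * 1 ≤ κ * √κ := mul_le_mul_of_nonneg_left hsq1 hκ0.le
      have h6 : ((1 + η) + 5 * (L + 4) + 4) * (κ * 1) ≤ ((1 + η) + 5 * (L + 4) + 4) * (κ * √κ) :=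
        mul_le_mul_of_nonneg_left h5 (by positivity)
      linarith
    have hmain : P * x * η / 2 - κ * (1 + η) ≤
        y * (1 + η) - (1 + P) * x * log (1 + P) := by
      have h1 : (P * x - κ) * (1 + η) ≤ y * (1 + η) :=
        mul_le_mul_of_nonneg_right hyPx' (by linarith)
      have h2 : (1 + P) * x * log (1 + P) ≤ (1 + P) * x * P :=
        mul_le_mul_of_nonneg_left hlog1P (by positivity)
      have h3 : x * P * P ≤ x * P * (η / 2) :=
        mul_le_mul_of_nonneg_left hP (by positivity)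
      linarith
    have h12 : 0 ≤ (x * P - y) * (log x - 1) :=
      mul_nonneg (by linarith) (by linarith)
    have h13 : log (1 + P) * (x * (1 - P) + 2 * y) ≤ (1 + P) * x * log (1 + P) := by
      have : x * (1 - P) + 2 * y ≤ (1 + P) * x := by linarith
      have := mul_le_mul_of_nonneg_left this hlog1P0
      linarith
    rw [hlc]
    linarith
  have hxy0 : 0 ≤ x / y := by positivity
  have h14 := mul_le_mul_of_nonneg_right key hxy0
  refine le_trans (le_of_eq ?_) h14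
  field_simp

lemma m4_le {κ : ℝ} {m : ℕ} (hκ : 1 ≤ κ) (hm : κ < m + 1) (hm1 : 1 ≤ m) :
    3 / √(m : ℝ) ≤ 5 / √κ := by
  have hm0 : (1 : ℝ) ≤ m := by exact_mod_cast hm1
  have h1 : κ ≤ 2 * m := by linarith
  have h2 : 0 < √(m : ℝ) := sqrt_pos.mpr (by linarith)
  have h3 : 0 < √κ := sqrt_pos.mpr (by linarith)
  rw [div_le_div_iff₀ h2 h3]
  have h4 : √κ ≤ √(5 / 3 * (5 / 3) * m) := sqrt_le_sqrt (by linarith)
  rw [sqrt_mul (by norm_num), sqrt_mul_self (by norm_num)] at h4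
  linarith

/-- All large rational exponents, base `c < 4 / e`. -/
theorem constR' (c : ℝ) (hc : 0 < c) (hce : c < 4 / exp 1) : ∃ K : ℝ, ∀ κ : ℚ, K ≤ (κ : ℝ) →
    ∃ (n j : ℕ) (q : Fin n → ℕ) (β : Fin n → ℝ), (1 ≤ j ∧ (∀ i, 2 ≤ q i) ∧
      (j : ℝ) / κ + ∑ i, 1 / (q i : ℝ) = 1 ∧ (∀ i, 0 < β i) ∧ (∀ i, β i ≤ 1 / (q i : ℝ)) ∧
      ∑ i, β i ≤ 1 ∧ 1 ≤ (κ : ℝ) * j) ∧
      c ^ ((κ : ℝ) ^ 2) / Gamma ((κ : ℝ) ^ 2 + 1) ≤ mB (κ : ℝ) j q β := by
  obtain ⟨η, hη⟩ : ∃ η : ℝ, η = 2 * log 2 - 1 - log c := ⟨_, rfl⟩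
  have hη0 : 0 < η := by
    have h1 := log_lt_log hc hce
    rw [log_div (by norm_num) (exp_pos 1).ne', log_exp, show (4 : ℝ) = 2 ^ 2 by norm_num,
      log_pow] at h1
    push_cast at h1
    linarith
  obtain ⟨L, hL⟩ := exists_pow_lt_of_lt_one (by positivity : 0 < η / 2)
    (by norm_num : (1 / 2 : ℝ) < 1)
  obtain ⟨C, hC⟩ : ∃ C : ℝ, C = (1 + η) + 5 * (L + 4) + 24 := ⟨_, rfl⟩
  have hC0 : 0 < C := by rw [hC]; positivity
  obtain ⟨a, ha⟩ : ∃ a : ℝ, a = (1 / 2 : ℝ) ^ L * η / 2 := ⟨_, rfl⟩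
  have ha0 : 0 < a := by rw [ha]; positivity
  refine ⟨max ((C / a) ^ 2) (max (2 * 2 ^ L) 4), ?_⟩
  intro κ hκ
  have hκ1 : (C / a) ^ 2 ≤ (κ : ℝ) := (le_max_left _ _).trans hκ
  have hκ2 : (2 : ℝ) * 2 ^ L ≤ κ := (le_max_left _ _).trans ((le_max_right _ _).trans hκ)
  have hκ4 : (4 : ℝ) ≤ κ := (le_max_right _ _).trans ((le_max_right _ _).trans hκ)
  have hκ0 : (0 : ℝ) < κ := by linarith
  have hbig : C ≤ a * √(κ : ℝ) := by
    have h1 := sqrt_le_sqrt hκ1
    rw [sqrt_sq (by positivity), div_le_iff₀ ha0] at h1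
    linarith
  -- the integers
  have hκQ4 : (4 : ℚ) ≤ κ := by exact_mod_cast hκ4
  have hκQ0 : (0 : ℚ) < κ := by linarith
  obtain ⟨j, hj⟩ : ∃ j : ℕ, j = ⌊(1 / 2 : ℚ) ^ L * κ⌋₊ := ⟨_, rfl⟩
  have hj1Q : (j : ℚ) ≤ (1 / 2 : ℚ) ^ L * κ := by
    rw [hj]; exact Nat.floor_le (by positivity)
  have hj2Q : (1 / 2 : ℚ) ^ L * κ < j + 1 := by
    rw [hj]; exact Nat.lt_floor_add_one _
  have hj1 : (j : ℝ) ≤ (1 / 2 : ℝ) ^ L * κ := by
    have := (Rat.cast_le (K := ℝ)).mpr hj1Q
    push_cast at this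
    exact this
  have hj2 : (1 / 2 : ℝ) ^ L * κ < j + 1 := by
    have := (Rat.cast_lt (K := ℝ)).mpr hj2Q
    push_cast at this
    exact this
  have hPP : (1 / 2 : ℝ) ^ L * 2 ^ L = 1 := by
    rw [← mul_pow]; norm_num
  have hPκ : 2 ≤ (1 / 2 : ℝ) ^ L * κ := by
    have := mul_le_mul_of_nonneg_left hκ2 (by positivity : (0 : ℝ) ≤ (1 / 2) ^ L)
    linarith
  have hj1' : 1 ≤ j := by
    have : (1 : ℝ) < j + 1 := by linarith
    have : (0 : ℝ) < j := by linarith
    exact_mod_cast this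
  obtain ⟨m, hm⟩ : ∃ m : ℕ, m = ⌊κ⌋₊ := ⟨_, rfl⟩
  have hm1 : (m : ℝ) ≤ κ := by
    have : (m : ℚ) ≤ κ := by rw [hm]; exact Nat.floor_le hκQ0.le
    exact_mod_cast (Rat.cast_le (K := ℝ)).mpr this
  have hm2 : (κ : ℝ) < m + 1 := by
    have : κ < (m : ℚ) + 1 := by rw [hm]; exact Nat.lt_floor_add_one _
    exact_mod_cast (Rat.cast_lt (K := ℝ)).mpr this
  have hm3 : 3 ≤ m := by
    have : (3 : ℝ) < m + 1 := by linarith
    have : (3 : ℝ) < m + 1 := by linarith
    have h4 : (3 : ℝ) ≤ m := by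
      have h5 : (4 : ℝ) < ((m + 1 : ℕ) : ℝ) ∨ (4 : ℝ) = κ := by
        rcases eq_or_lt_of_le hκ4 with h | h
        · exact Or.inr h
        · left; push_cast; linarith
      rcases h5 with h5 | h5
      · have : 4 < m + 1 := by exact_mod_cast h5
        exact_mod_cast (by omega : 3 ≤ m)
      · have : (4 : ℝ) < ((m + 1 : ℕ) : ℝ) := by push_cast; linarith
        have : 4 < m + 1 := by exact_mod_cast this
        exact_mod_cast (by omega : 3 ≤ m)
    exact_mod_cast h4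
  -- the remainder
  obtain ⟨ρ, hρ⟩ : ∃ ρ : ℚ, ρ = (1 / 2 : ℚ) ^ L - j / κ := ⟨_, rfl⟩
  have hρ0 : 0 ≤ ρ := by
    rw [hρ, sub_nonneg, div_le_iff₀ hκQ0]; exact hj1Q
  have hρκ : ρ < 1 / κ := by
    rw [hρ, sub_lt_iff_lt_add, ← add_div, lt_div_iff₀ hκQ0]; linarith
  have hpq : ρ.num.toNat * m < ρ.den := by
    have h1 : ρ * m < 1 := by
      have h2 : (m : ℚ) ≤ κ := by exact_mod_cast hm1
      have h3 : ρ * m ≤ ρ * κ := mul_le_mul_of_nonneg_left h2 hρ0
      rw [lt_div_iff₀ hκQ0] at hρκ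
      linarith
    have h4 : (ρ.num.toNat : ℚ) = ρ.num := by
      have : ((ρ.num.toNat : ℤ)) = ρ.num := Int.toNat_of_nonneg (Rat.num_nonneg.mpr hρ0)
      exact_mod_cast this
    have h5 : (0 : ℚ) < ρ.den := by exact_mod_cast ρ.den_pos
    have h6 : (ρ.num : ℚ) = ρ * ρ.den := (Rat.mul_den_eq_num ρ).symm
    have h7 : (ρ.num.toNat : ℚ) * m < ρ.den := by
      rw [h4, h6]
      have := mul_lt_mul_of_pos_right h1 h5
      linarith
    exact_mod_cast h7
  obtain ⟨r, e, he1, he2, he3⟩ := egy _ _ m hm3 hpq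
  have hρe : ∑ i, 1 / (e i : ℝ) = ρ := by
    rw [he2]
    have h4 : ((ρ.num.toNat : ℕ) : ℝ) = ((ρ.num : ℤ) : ℝ) := by
      have : ((ρ.num.toNat : ℤ)) = ρ.num := Int.toNat_of_nonneg (Rat.num_nonneg.mpr hρ0)
      exact_mod_cast congrArg (Int.cast : ℤ → ℝ) this
    rw [h4, Rat.cast_def ρ]
  have hρR : (ρ : ℝ) = (1 / 2 : ℝ) ^ L - j / κ := by rw [hρ]; push_cast; rfl
  have hρR0 : (0 : ℝ) ≤ ρ := by exact_mod_cast hρ0
  have he : ∀ i, (κ : ℝ) < e i := by
    intro i
    have : m + 1 ≤ e i := he1 i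
    have : ((m + 1 : ℕ) : ℝ) ≤ e i := by exact_mod_cast this
    push_cast at this
    linarith
  have hP0 : (0 : ℝ) < (1 / 2) ^ L := by positivity
  have hP1 : (1 / 2 : ℝ) ^ L ≤ 1 := pow_le_one₀ (by norm_num) (by norm_num)
  have hβ0 : ∀ i, 0 < βR L r e i := by
    intro i
    refine Fin.addCases (fun i => ?_) (fun i => ?_) i
    · simp only [βR, Fin.append_left]; positivity
    · simp only [βR, Fin.append_right]
      have := he i
      have : (0 : ℝ) < e i := by linarith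
      positivity
  refine ⟨L + r, j, qR L r e, βR L r e, ⟨hj1', ?_, ?_, hβ0, ?_, ?_, ?_⟩, ?_⟩
  · intro i
    refine Fin.addCases (fun i => ?_) (fun i => ?_) i
    · simp only [qR, Fin.append_left]
      rw [pow_succ]; have := Nat.one_le_two_pow (n := (i : ℕ)); omega
    · simp only [qR, Fin.append_right]
      have := he1 i
      omega
  · rw [Fin.sum_univ_add]
    simp only [qR, Fin.append_left, Fin.append_right]
    have e1 : ∑ i : Fin L, 1 / (((2 ^ ((i : ℕ) + 1) : ℕ)) : ℝ) = 1 - (1 / 2) ^ L := by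
      rw [← ConstB.geo L]
      apply Finset.sum_congr rfl
      intro i _
      push_cast
      rw [div_pow, one_pow]
    rw [e1, hρe, hρR]
    ring
  · intro i
    refine Fin.addCases (fun i => ?_) (fun i => ?_) i
    · simp only [βR, qR, Fin.append_left]
      push_cast
      rw [div_pow, one_pow]
      apply div_le_self (by positivity)
      linarith
    · simp only [βR, qR, Fin.append_right]
      exact le_rfl
  · rw [Fin.sum_univ_add]
    simp only [βR, Fin.append_left, Fin.append_right]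
    rw [← Finset.sum_div, ConstB.geo, hρe, hρR]
    have h2 : (1 - (1 / 2 : ℝ) ^ L) / (1 + (1 / 2) ^ L) ≤ 1 - (1 / 2) ^ L := by
      rw [div_le_iff₀ (by positivity)]
      nlinarith
    have h3 : (0 : ℝ) ≤ j / κ := by positivity
    linarith
  · have h2 : (1 : ℝ) ≤ j := by exact_mod_cast hj1'
    exact one_le_mul_of_one_le_of_one_le (by linarith) h2
  · have h1 := main_est (κ := (κ : ℝ)) (L := L) (r := r) (j := j) e hj1' hj1 (by linarith) hκ2 he
      (by rw [hρe]
          have : (ρ : ℝ) < ((1 / κ : ℚ) : ℝ) := by exact_mod_cast hρκ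
          push_cast at this
          exact this.le)
      (he3.trans (m4_le (by linarith) hm2 (by omega))) hβ0 (log c) η hη0
        (by linarith) hL.le (by rw [← hC, ← ha]; exact hbig)
    rw [rpow_def_of_pos hc]
    exact h1

/-- strict form -/
theorem constR'' (A : ℝ) (hA : 0 < A) (hA2 : A < 4 / exp 1) : ∃ K : ℝ, ∀ κ : ℚ, K ≤ (κ : ℝ) →
    ∃ (n j : ℕ) (q : Fin n → ℕ) (β : Fin n → ℝ), (1 ≤ j ∧ (∀ i, 2 ≤ q i) ∧
      (j : ℝ) / κ + ∑ i, 1 / (q i : ℝ) = 1 ∧ (∀ i, 0 < β i) ∧ (∀ i, β i ≤ 1 / (q i : ℝ)) ∧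
      ∑ i, β i ≤ 1 ∧ 1 ≤ (κ : ℝ) * j) ∧
      A ^ ((κ : ℝ) ^ 2) / Gamma ((κ : ℝ) ^ 2 + 1) < mB (κ : ℝ) j q β := by
  obtain ⟨c, hc1, hc2⟩ := exists_between hA2
  obtain ⟨K, hK⟩ := constR' c (hA.trans hc1) hc2
  refine ⟨max K 1, ?_⟩
  intro κ hκ
  obtain ⟨n, j, q, β, h1, h2⟩ := hK κ ((le_max_left _ _).trans hκ)
  refine ⟨n, j, q, β, h1, lt_of_lt_of_le ?_ h2⟩
  have hκ0 : (0 : ℝ) < κ := lt_of_lt_of_le one_pos ((le_max_right _ _).trans hκ)
  have h3 : A ^ ((κ : ℝ) ^ 2) < c ^ ((κ : ℝ) ^ 2) :=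
    rpow_lt_rpow hA.le hc1 (by positivity)
  exact div_lt_div_of_pos_right h3 (Gamma_pos_of_pos (by positivity))

end Pool.Agent.H379R2.ConstR
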