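import Pool.Agent.H295R2.Mol.Defs
import Pool.Agent.H295R2.P

/-!
# T4a: polynomial bound for the coefficients of `F A` (task 4a of h295b_tasks, helper379)
-/

set_option autoImplicit false

open MeasureTheory Filter Topology Set
open scoped ENNReal

namespace Pool.Agent.H379R2.Mol4a

open Pool.Agent.H295R2.Mol

noncomputable section

/-- rapidly decaying functions are integrable on vertical lines -/
lemma phi_int {Φ : ℂ → ℂ} (hd : Differentiable ℂ Φ)
    (hΦ : ∀ a b J : ℝ, ∃ C' : ℝ, ∀ s : ℂ, a ≤ s.re → s.re ≤ b → ‖Φ s‖ ≤ C' * (1 + |s.im|) ^ (-J))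
    (c : ℝ) : Integrable (fun t : ℝ => Φ (c + t * Complex.I)) := by
  obtain ⟨C', hC'⟩ := hΦ c c (3 / 2)
  exact Pool.Agent.H295R2.vertical_integrable (B := C') (fun s _ => (hd s).continuousAt)
    (fun s hs => hC' s hs.ge hs.le)

lemma cont_pow {n : ℕ} (hn : 1 ≤ n) (c : ℝ) :
    Continuous (fun t : ℝ => (n : ℂ) ^ (-((c : ℂ) + t * Complex.I))) := by
  have h0 : (n : ℂ) ≠ 0 := by exact_mod_cast (by omega : n ≠ 0)
  have h1 : Continuous (fun t : ℝ => (-((c : ℂ) + t * Complex.I))) := by fun_prop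
  exact h1.const_cpow (Or.inl h0)

lemma norm_pow {n : ℕ} (hn : 1 ≤ n) (c t : ℝ) :
    ‖(n : ℂ) ^ (-((c : ℂ) + t * Complex.I))‖ = (n : ℝ) ^ (-c) := by
  rw [Complex.norm_natCast_cpow_of_pos (by omega)]
  simp

lemma cont_term (lam : ℕ → ℂ) (k : ℕ) (c : ℝ) :
    Continuous (fun t : ℝ => LSeries.term lam ((c : ℂ) + t * Complex.I) k) := by
  rcases Nat.eq_zero_or_pos k with hk | hk
  · subst hk
    simp only [LSeries.term_zero]
    exact continuous_const
  · have h0 : (k : ℂ) ≠ 0 := by exact_mod_cast (by omega : k ≠ 0)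
    have h1 : Continuous (fun t : ℝ => (k : ℂ) ^ ((c : ℂ) + t * Complex.I)) := by
      have h2 : Continuous (fun t : ℝ => ((c : ℂ) + t * Complex.I)) := by fun_prop
      exact h2.const_cpow (Or.inl h0)
    simp only [LSeries.term_of_ne_zero (by omega : k ≠ 0)]
    refine continuous_const.div h1 fun t => ?_
    rw [Ne, Complex.cpow_eq_zero_iff]
    exact fun h => h0 h.1

/-- the main term-by-term integration -/
lemma inter {lam : ℕ → ℂ} {F : ℂ → ℂ} {c : ℝ}
    (hs : ∀ t : ℝ, LSeriesHasSum lam ((c : ℂ) + t * Complex.I) (F (c + t * Complex.I)))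
    {Φ : ℂ → ℂ} (hi : Integrable (fun t : ℝ => Φ (c + t * Complex.I))) {m : ℕ} (hm : 1 ≤ m)
    (hk : ∀ k : ℕ, 1 ≤ k →
      ∫ t : ℝ, (k : ℂ) ^ (-((c : ℂ) + t * Complex.I)) * Φ (c + t * Complex.I) =
        if k = m then 1 else 0) {n : ℕ} (hn : 1 ≤ n) :
    ∫ t : ℝ, F (c + t * Complex.I) * (n : ℂ) ^ (-((c : ℂ) + t * Complex.I)) *
      Φ (c + t * Complex.I) = if n ∣ m then lam (m / n) else 0 := by
  set G : ℕ → ℝ → ℂ := fun k t => LSeries.term lam ((c : ℂ) + t * Complex.I) k *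
    (n : ℂ) ^ (-((c : ℂ) + t * Complex.I)) * Φ (c + t * Complex.I) with hG
  have hnt : ∀ (k : ℕ) (t : ℝ), ‖LSeries.term lam ((c : ℂ) + t * Complex.I) k‖ =
      ‖LSeries.term lam (c : ℂ) k‖ := by
    intro k t
    rw [LSeries.norm_term_eq, LSeries.norm_term_eq]
    simp
  have hGn : ∀ (k : ℕ) (t : ℝ), ‖G k t‖ =
      ‖LSeries.term lam (c : ℂ) k‖ * (n : ℝ) ^ (-c) * ‖Φ (c + t * Complex.I)‖ := by
    intro k t
    simp only [hG]
    rw [norm_mul, norm_mul, norm_pow hn, hnt]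
  have hGi : ∀ k, Integrable (G k) := by
    intro k
    refine (hi.norm.const_mul (‖LSeries.term lam (c : ℂ) k‖ * (n : ℝ) ^ (-c))).mono'
      ((((cont_term lam k c).mul (cont_pow hn c)).aestronglyMeasurable).mul
        hi.aestronglyMeasurable) (Eventually.of_forall fun t => (hGn k t).le)
  have hsum : Summable fun k => ∫ t, ‖G k t‖ := by
    have h0 := hs 0
    simp only [Complex.ofReal_zero, zero_mul, add_zero] at h0
    have h1 : Summable fun k => ‖LSeries.term lam (c : ℂ) k‖ := h0.summable.norm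
    have h2 : (fun k => ∫ t, ‖G k t‖) = fun k => ‖LSeries.term lam (c : ℂ) k‖ *
        ((n : ℝ) ^ (-c) * ∫ t : ℝ, ‖Φ (c + t * Complex.I)‖) := by
      funext k
      simp only [hGn]
      rw [integral_const_mul, mul_assoc]
    rw [h2]
    exact h1.mul_right _
  have key := hasSum_integral_of_summable_integral_norm hGi hsum
  have e1 : ∀ t, ∑' k, G k t = F (c + t * Complex.I) * (n : ℂ) ^ (-((c : ℂ) + t * Complex.I)) *
      Φ (c + t * Complex.I) := by
    intro t
    have := ((hs t).mul_right ((n : ℂ) ^ (-((c : ℂ) + t * Complex.I)))).mul_right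
      (Φ (c + t * Complex.I))
    exact this.tsum_eq
  simp only [e1] at key
  have e2 : ∀ k : ℕ, 1 ≤ k → ∫ t, G k t = if k * n = m then lam k else 0 := by
    intro k hk1
    have h3 : ∀ t : ℝ, G k t = lam k * (((k * n : ℕ) : ℂ) ^ (-((c : ℂ) + t * Complex.I)) *
        Φ (c + t * Complex.I)) := by
      intro t
      simp only [hG]
      rw [LSeries.term_of_ne_zero (by omega), Nat.cast_mul, Complex.natCast_mul_natCast_cpow,
        Complex.cpow_neg (k : ℂ), div_eq_mul_inv]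
      ring
    simp only [h3]
    rw [integral_const_mul, hk (k * n) (Nat.mul_pos hk1 hn)]
    split_ifs <;> simp
  have e3 : ∫ t, G 0 t = 0 := by
    simp [hG, LSeries.term_zero]
  refine key.unique ?_
  by_cases hnm : n ∣ m
  · obtain ⟨k, rfl⟩ := hnm
    have hk1 : 1 ≤ k := Nat.pos_of_ne_zero (by rintro rfl; simp at hm)
    have h4 : n * k / n = k := Nat.mul_div_cancel_left k hn
    rw [if_pos ⟨k, rfl⟩, h4]
    have h5 := hasSum_single (f := fun x => ∫ t, G x t) k (fun k' hk' => ?_)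
    · rw [e2 k hk1, if_pos (mul_comm k n)] at h5
      exact h5
    · rcases Nat.eq_zero_or_pos k' with h0 | h0
      · subst h0; exact e3
      · show ∫ t, G k' t = 0
        rw [e2 k' h0, if_neg]
        intro h
        apply hk'
        rw [mul_comm k' n] at h
        exact Nat.eq_of_mul_eq_mul_left hn h
  · rw [if_neg hnm]
    have h6 : (fun x => ∫ t, G x t) = fun _ => 0 := by
      funext k'
      rcases Nat.eq_zero_or_pos k' with h0 | h0
      · subst h0; exact e3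
      · rw [e2 k' h0, if_neg]
        intro h
        exact hnm ⟨k', by rw [← h, mul_comm]⟩
    rw [h6]
    exact hasSum_zero

/-- integral of `G Φ` to the right -/
lemma int_right {lam : ℕ → ℂ} {F : ℂ → ℂ} {c : ℝ} (hF : Differentiable ℂ F)
    (hs : ∀ t : ℝ, LSeriesHasSum lam ((c : ℂ) + t * Complex.I) (F (c + t * Complex.I)))
    (hFb : ∃ A C : ℝ, ∀ t : ℝ, ‖F (c + t * Complex.I)‖ ≤ C * (1 + |t|) ^ A)
    {Φ : ℂ → ℂ} (hd : Differentiable ℂ Φ)
    (hΦ : ∀ a b J : ℝ, ∃ C' : ℝ, ∀ s : ℂ, a ≤ s.re → s.re ≤ b → ‖Φ s‖ ≤ C' * (1 + |s.im|) ^ (-J))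
    {m : ℕ} (hm : 1 ≤ m)
    (hk : ∀ k : ℕ, 1 ≤ k →
      ∫ t : ℝ, (k : ℂ) ^ (-((c : ℂ) + t * Complex.I)) * Φ (c + t * Complex.I) =
        if k = m then 1 else 0) {N : ℕ} (hmN : m ≤ N) (a : ℕ → ℂ) :
    ∫ t : ℝ, GG F N a (c + t * Complex.I) * Φ (c + t * Complex.I) =
      (if 1 = m then 1 else 0) - bco lam a m := by
  have hi := phi_int hd hΦ c
  have hFc : Continuous (fun t : ℝ => F (c + t * Complex.I)) :=
    hF.continuous.comp (by fun_prop)
  have hΦc : Continuous (fun t : ℝ => Φ (c + t * Complex.I)) :=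
    hd.continuous.comp (by fun_prop)
  have hii : ∀ n : ℕ, 1 ≤ n → Integrable (fun t : ℝ => F (c + t * Complex.I) *
      (n : ℂ) ^ (-((c : ℂ) + t * Complex.I)) * Φ (c + t * Complex.I)) := by
    intro n hn
    obtain ⟨A, C, hC⟩ := hFb
    obtain ⟨C', hC'⟩ := hΦ c c (A + 3 / 2)
    refine (Pool.Agent.H295R2.integrable_decay.const_mul (|C| * (n : ℝ) ^ (-c) * |C'|)).mono'
      ((hFc.mul (cont_pow hn c)).mul hΦc).aestronglyMeasurable (Eventually.of_forall fun t => ?_)
    rw [norm_mul, norm_mul, norm_pow hn]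
    have h1 := hC t
    have h2 := hC' (c + t * Complex.I) (by simp) (by simp)
    have h3 : ((c : ℂ) + t * Complex.I).im = t := by simp
    rw [h3] at h2
    have hp : (0 : ℝ) < 1 + |t| := by positivity
    have hn0 : (0 : ℝ) ≤ (n : ℝ) ^ (-c) := by positivity
    have h1' : ‖F (c + t * Complex.I)‖ ≤ |C| * (1 + |t|) ^ A :=
      h1.trans (mul_le_mul_of_nonneg_right (le_abs_self C) (Real.rpow_nonneg hp.le _))
    have h2' : ‖Φ (c + t * Complex.I)‖ ≤ |C'| * (1 + |t|) ^ (-(A + 3 / 2)) :=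
      h2.trans (mul_le_mul_of_nonneg_right (le_abs_self C') (Real.rpow_nonneg hp.le _))
    calc ‖F (c + t * Complex.I)‖ * (n : ℝ) ^ (-c) * ‖Φ (c + t * Complex.I)‖
        ≤ (|C| * (1 + |t|) ^ A) * (n : ℝ) ^ (-c) * (|C'| * (1 + |t|) ^ (-(A + 3 / 2))) := by
          gcongr
      _ = |C| * (n : ℝ) ^ (-c) * |C'| * ((1 + |t|) ^ A * (1 + |t|) ^ (-(A + 3 / 2))) := by ring
      _ = |C| * (n : ℝ) ^ (-c) * |C'| * (1 + |t|) ^ (-(3 / 2) : ℝ) := by
          rw [← Real.rpow_add hp]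
          congr 2
          ring
  have e1 : ∀ t : ℝ, GG F N a (c + t * Complex.I) * Φ (c + t * Complex.I) =
      Φ (c + t * Complex.I) - ∑ n ∈ Finset.Icc 1 N, a n * (F (c + t * Complex.I) *
        (n : ℂ) ^ (-((c : ℂ) + t * Complex.I)) * Φ (c + t * Complex.I)) := by
    intro t
    rw [GG, DP, sub_mul, one_mul, Finset.mul_sum, Finset.sum_mul]
    congr 1
    refine Finset.sum_congr rfl fun n _ => ?_
    ring
  simp only [e1]
  rw [integral_sub hi (integrable_finsetSum _ fun n hn =>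
    (hii n (Finset.mem_Icc.1 hn).1).const_mul _), integral_finsetSum _ fun n hn =>
    (hii n (Finset.mem_Icc.1 hn).1).const_mul _]
  congr 1
  · have := hk 1 le_rfl
    simpa using this
  · rw [bco]
    have e2 : ∀ n ∈ Finset.Icc 1 N, ∫ t : ℝ, a n * (F (c + t * Complex.I) *
        (n : ℂ) ^ (-((c : ℂ) + t * Complex.I)) * Φ (c + t * Complex.I)) =
        if n ∈ m.divisors then a n * lam (m / n) else 0 := by
      intro n hn
      rw [integral_const_mul, inter hs hi hm hk (Finset.mem_Icc.1 hn).1]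
      by_cases hnm : n ∣ m
      · rw [if_pos hnm, if_pos (Nat.mem_divisors.2 ⟨hnm, by omega⟩)]
      · rw [if_neg hnm, if_neg (fun h => hnm (Nat.mem_divisors.1 h).1), mul_zero]
    rw [Finset.sum_congr rfl e2, ← Finset.sum_filter]
    refine Finset.sum_congr ?_ fun _ _ => rfl
    ext n
    simp only [Finset.mem_filter, Finset.mem_Icc, Nat.mem_divisors]
    constructor
    · exact fun h => h.2
    · intro h
      exact ⟨⟨Nat.pos_of_dvd_of_pos h.1 hm, (Nat.le_of_dvd hm h.1).trans hmN⟩, h⟩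

lemma diff_DP (N : ℕ) (a : ℕ → ℂ) : Differentiable ℂ (DP N a) := by
  unfold DP
  refine Differentiable.fun_sum fun n hn => ?_
  have h0 : (n : ℂ) ≠ 0 := by
    exact_mod_cast (by have := (Finset.mem_Icc.1 hn).1; omega : n ≠ 0)
  exact (differentiable_const _).mul ((differentiable_id.neg).const_cpow (Or.inl h0))

lemma DP_bound (N : ℕ) (a : ℕ → ℂ) (σ : ℝ) (s : ℂ) (hs : σ ≤ s.re) :
    ‖DP N a s‖ ≤ ∑ n ∈ Finset.Icc 1 N, ‖a n‖ * (n : ℝ) ^ (-σ) := by
  unfold DP
  refine (norm_sum_le _ _).trans (Finset.sum_le_sum fun n hn => ?_)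
  have h1 : 1 ≤ n := (Finset.mem_Icc.1 hn).1
  rw [norm_mul, Complex.norm_natCast_cpow_of_pos (by omega)]
  refine mul_le_mul_of_nonneg_left ?_ (norm_nonneg _)
  refine Real.rpow_le_rpow_of_exponent_le (by exact_mod_cast h1) ?_
  rw [Complex.neg_re]
  linarith

theorem coefB (hTest : Test) (hHold : Hold) : CoefB := by
  intro lam mu F hF p w σ hp
  obtain ⟨C1, B1, hC1, hB1, hT⟩ := hTest σ (w + 2)
  obtain ⟨C2, hC2, hH⟩ := hHold p w hp
  refine ⟨1 + C2 * C1, B1, by positivity, hB1, fun N a hN hn m hm => ?_⟩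
  have hm1 : 1 ≤ m := (Finset.mem_Icc.1 hm).1
  obtain ⟨Φ, hd, hΦ, hk, hb⟩ := hT m hm1
  set c : ℝ := max σ 2 with hc
  have hc1 : 1 < c := lt_of_lt_of_le (by norm_num) (le_max_right σ 2)
  have hσc : σ ≤ c := le_max_left σ 2
  have hs : ∀ t : ℝ, LSeriesHasSum lam ((c : ℂ) + t * Complex.I) (F (c + t * Complex.I)) :=
    fun t => hF.series _ (by simpa using hc1)
  obtain ⟨C, A, hCA⟩ := hF.growth σ c
  have hright := int_right hF.entire hs
    ⟨A, C, fun t => by simpa using hCA (c + t * Complex.I) (by simpa using hσc) (by simp)⟩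
    hd hΦ hm1 (hk c) (Finset.mem_Icc.1 hm).2 a
  -- shift the contour
  have hGd : Differentiable ℂ (fun s => GG F N a s * Φ s) := by
    have : Differentiable ℂ (GG F N a) := by
      unfold GG
      exact (differentiable_const _).sub (hF.entire.mul (diff_DP N a))
    exact this.mul hd
  obtain ⟨C', hC'⟩ := hΦ σ c (max A 0 + 3 / 2)
  have hshift : ∫ t : ℝ, (fun s => GG F N a s * Φ s) (σ + t * Complex.I) =
      ∫ t : ℝ, (fun s => GG F N a s * Φ s) (c + t * Complex.I) := by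
    refine Pool.Agent.H295R2.contour_shift
      (B := (1 + |C| * ∑ n ∈ Finset.Icc 1 N, ‖a n‖ * (n : ℝ) ^ (-σ)) * |C'|) hσc
      (fun s _ _ => hGd s) (fun s h1 h2 => ?_)
    set P : ℝ := ∑ n ∈ Finset.Icc 1 N, ‖a n‖ * (n : ℝ) ^ (-σ) with hP
    have hP0 : 0 ≤ P := Finset.sum_nonneg fun n _ => by positivity
    have hp1 : (1 : ℝ) ≤ 1 + |s.im| := by have := abs_nonneg s.im; linarith
    have hp0 : (0 : ℝ) < 1 + |s.im| := by linarith
    have hA0 : (1 : ℝ) ≤ (1 + |s.im|) ^ (max A 0) :=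
      Real.one_le_rpow hp1 (le_max_right _ _)
    have hFs : ‖F s‖ ≤ |C| * (1 + |s.im|) ^ (max A 0) := by
      refine (hCA s h1 h2).trans ?_
      refine (mul_le_mul_of_nonneg_right (le_abs_self C) (Real.rpow_nonneg hp0.le _)).trans ?_
      refine mul_le_mul_of_nonneg_left ?_ (abs_nonneg C)
      exact Real.rpow_le_rpow_of_exponent_le hp1 (le_max_left _ _)
    have hG : ‖GG F N a s‖ ≤ (1 + |C| * P) * (1 + |s.im|) ^ (max A 0) := by
      rw [GG]
      refine (norm_sub_le _ _).trans ?_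
      rw [norm_one, norm_mul]
      have h3 := mul_le_mul hFs (DP_bound N a σ s h1) (norm_nonneg _) (by positivity)
      rw [← hP] at h3
      nlinarith [h3, hA0]
    have hΦs : ‖Φ s‖ ≤ |C'| * (1 + |s.im|) ^ (-(max A 0 + 3 / 2)) :=
      (hC' s h1 h2).trans
        (mul_le_mul_of_nonneg_right (le_abs_self C') (Real.rpow_nonneg hp0.le _))
    show ‖GG F N a s * Φ s‖ ≤ _
    rw [norm_mul]
    calc ‖GG F N a s‖ * ‖Φ s‖ ≤ ((1 + |C| * P) * (1 + |s.im|) ^ (max A 0)) *
          (|C'| * (1 + |s.im|) ^ (-(max A 0 + 3 / 2))) :=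
          mul_le_mul hG hΦs (norm_nonneg _) (by positivity)
      _ = (1 + |C| * P) * |C'| * ((1 + |s.im|) ^ (max A 0) *
          (1 + |s.im|) ^ (-(max A 0 + 3 / 2))) := by ring
      _ = (1 + |C| * P) * |C'| * (1 + |s.im|) ^ (-(3 / 2 : ℝ)) := by
          rw [← Real.rpow_add hp0]
          congr 2
          ring
  have hfin := hH (fun t : ℝ => GG F N a (σ + t * Complex.I)) (fun t : ℝ => Φ (σ + t * Complex.I))
    (C1 * (m : ℝ) ^ B1) ?_ ?_ (by positivity) ?_ ?_
  · have h5 : ‖∫ t : ℝ, GG F N a (σ + t * Complex.I) * Φ (σ + t * Complex.I)‖ ≤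
        C2 * (C1 * (m : ℝ) ^ B1) := by
      refine hfin.trans ?_
      have h6 : (eLpNorm (fun t : ℝ => GG F N a (σ + t * Complex.I) *
          (((1 + |t|) ^ (-w) : ℝ) : ℂ)) p volume).toReal ≤ 1 := by
        have := ENNReal.toReal_mono ENNReal.one_ne_top hn
        simpa [nrm] using this
      have h7 : 0 ≤ C2 * (C1 * (m : ℝ) ^ B1) := by positivity
      exact mul_le_of_le_one_right h7 h6
    have h8 : bco lam a m = (if 1 = m then 1 else 0) -
        ∫ t : ℝ, GG F N a (σ + t * Complex.I) * Φ (σ + t * Complex.I) := by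
      have h9 : ∫ t : ℝ, GG F N a (σ + t * Complex.I) * Φ (σ + t * Complex.I) =
        ∫ t : ℝ, GG F N a (c + t * Complex.I) * Φ (c + t * Complex.I) := hshift
      rw [h9, hright]
      ring
    have hm1' : (1 : ℝ) ≤ (m : ℝ) ^ B1 := Real.one_le_rpow (by exact_mod_cast hm1) hB1.le
    rw [h8]
    refine (norm_sub_le _ _).trans ?_
    have h10 : ‖(if 1 = m then (1 : ℂ) else 0)‖ ≤ 1 := by split_ifs <;> simp
    nlinarith [h5, h10, hm1']
  · have : Differentiable ℂ (GG F N a) := by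
      unfold GG
      exact (differentiable_const _).sub (hF.entire.mul (diff_DP N a))
    exact this.continuous.comp (by fun_prop)
  · exact hd.continuous.comp (by fun_prop)
  · intro t
    have := hb t
    rw [show -(w + 2) = -w - 2 by ring] at this
    exact this
  · exact ne_top_of_le_ne_top ENNReal.one_ne_top hn

end

end Pool.Agent.H379R2.Mol4a
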