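import Pool.Agent.H295R2.Nic.Defs

set_option autoImplicit false

open MeasureTheory Filter Topology Set

namespace Pool.Agent.H379R2.NicHEq

open Pool.Agent.H295R2 Pool.Agent.H295R2.Nic

noncomputable section

lemma Sv_measurable : Measurable Sv := by
  have h1 : Measurable Chebyshev.psi := Chebyshev.psi_mono.measurable
  unfold Sv
  exact (h1.comp Real.measurable_exp).sub Real.measurable_exp

/-- `ψ(t) - t` cut off at `1` -/
def gf (t : ℝ) : ℂ := (Ioi (1:ℝ)).indicator (fun t => ((Chebyshev.psi t - t : ℝ) : ℂ)) t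

lemma gf_measurable : Measurable gf := by
  unfold gf
  refine Measurable.indicator ?_ measurableSet_Ioi
  exact Complex.measurable_ofReal.comp (Chebyshev.psi_mono.measurable.sub measurable_id)

lemma gf_bound {θ C : ℝ} (hC : ∀ x : ℝ, 1 ≤ x → |Chebyshev.psi x - x| ≤ C * x ^ θ) {t : ℝ} (ht : 0 < t) :
    ‖gf t‖ ≤ C * t ^ θ := by
  have hC0 : 0 ≤ C := by
    have := hC 1 le_rfl
    rw [Real.one_rpow, mul_one] at this
    exact (abs_nonneg _).trans this
  unfold gf
  by_cases h : t ∈ Ioi (1:ℝ)
  · rw [indicator_of_mem h, Complex.norm_real, Real.norm_eq_abs]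
    exact hC t (le_of_lt h)
  · rw [indicator_of_notMem h, norm_zero]
    positivity

/-- the transform in the variable `x = e^v` -/
lemma HH_eq (s : ℂ) : HH s = ∫ t in Ioi (1:ℝ), ((Chebyshev.psi t - t : ℝ) : ℂ) * (t : ℂ) ^ (-(s + 1)) := by
  have himg : Real.exp '' Ioi (0:ℝ) = Ioi (1:ℝ) := by
    ext x
    simp only [mem_image, mem_Ioi]
    constructor
    · rintro ⟨v, hv, rfl⟩
      exact Real.one_lt_exp_iff.mpr hv
    · intro hx
      exact ⟨Real.log x, Real.log_pos hx, Real.exp_log (by linarith)⟩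
  have h1 := integral_image_eq_integral_abs_deriv_smul measurableSet_Ioi
    (fun x _ => (Real.hasDerivAt_exp x).hasDerivWithinAt) Real.exp_injective.injOn
    (fun t : ℝ => ((Chebyshev.psi t - t : ℝ) : ℂ) * (t : ℂ) ^ (-(s + 1))) (s := Ioi (0:ℝ))
  rw [himg] at h1
  rw [h1]
  unfold HH
  refine setIntegral_congr_fun measurableSet_Ioi fun v _ => ?_
  have h2 : ((Real.exp v : ℝ) : ℂ) ≠ 0 := by
    exact_mod_cast (Real.exp_pos v).ne'
  have h3 : ((Real.exp v : ℝ) : ℂ) ^ (-(s + 1)) = Complex.exp (-(s + 1) * v) := by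
    rw [Complex.cpow_def_of_ne_zero h2, ← Complex.ofReal_log (Real.exp_pos v).le, Real.log_exp, mul_comm]
  rw [h3, abs_of_pos (Real.exp_pos v), Complex.real_smul, Complex.ofReal_exp, Sv]
  have h4 : Complex.exp (v : ℂ) * Complex.exp (-(s + 1) * v) = Complex.exp (-s * v) := by
    rw [← Complex.exp_add]; congr 1; ring
  rw [← h4]
  ring

lemma HH_mellin (s : ℂ) : HH s = mellin gf (-s) := by
  rw [HH_eq]
  unfold mellin
  have hsub : Ioi (1:ℝ) ⊆ Ioi 0 := Ioi_subset_Ioi zero_le_one
  have h1 : ∀ t : ℝ, (t : ℂ) ^ (-s - 1) • gf t =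
      (Ioi (1:ℝ)).indicator (fun t => ((Chebyshev.psi t - t : ℝ) : ℂ) * (t : ℂ) ^ (-(s + 1))) t := by
    intro t
    unfold gf
    by_cases ht : t ∈ Ioi (1:ℝ)
    · rw [indicator_of_mem ht, indicator_of_mem ht, smul_eq_mul, mul_comm]
      congr 2
      ring
    · rw [indicator_of_notMem ht, indicator_of_notMem ht, smul_zero]
  simp_rw [h1]
  rw [setIntegral_indicator measurableSet_Ioi, inter_eq_self_of_subset_right hsub]

lemma HH_differentiableAt (h : PsiB) {s : ℂ} (hs : zetaSup < s.re) : DifferentiableAt ℂ HH s := by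
  obtain ⟨θ, hθ, hθs⟩ := exists_between hs
  obtain ⟨C, hC⟩ := h θ hθ
  have h1 : DifferentiableAt ℂ (mellin gf) (-s) := by
    refine mellin_differentiableAt_of_isBigO_rpow (a := -θ) (b := -s.re - 1) ?_ ?_ ?_ ?_ ?_
    · refine (locallyIntegrableOn_iff isOpen_Ioi.isLocallyClosed).mpr fun K hK hKc => ?_
      have hcont : ContinuousOn (fun t : ℝ => C * t ^ θ) K := by
        refine ContinuousOn.mul continuousOn_const (ContinuousOn.rpow_const continuousOn_id fun x hx => ?_)
        exact Or.inl (ne_of_gt (hK hx))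
      refine Integrable.mono (hcont.integrableOn_compact hKc) gf_measurable.aestronglyMeasurable ?_
      refine (ae_restrict_iff' hKc.measurableSet).mpr (Eventually.of_forall fun t ht => ?_)
      exact (gf_bound hC (hK ht)).trans (Real.le_norm_self _)
    · refine Asymptotics.IsBigO.of_bound C ?_
      filter_upwards [eventually_gt_atTop 0] with t ht
      rw [neg_neg, Real.norm_of_nonneg (Real.rpow_nonneg ht.le _)]
      exact gf_bound hC ht
    · simpa using hθs
    · refine Asymptotics.IsBigO.of_bound 1 ?_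
      have h2 : ∀ᶠ t : ℝ in 𝓝[>] 0, t < 1 := nhdsWithin_le_nhds (Iio_mem_nhds one_pos)
      filter_upwards [h2] with t ht
      have : gf t = 0 := by
        unfold gf
        rw [indicator_of_notMem]
        simp only [mem_Ioi, not_lt]
        exact ht.le
      rw [this, norm_zero]
      positivity
    · simp
  have h2 : HH = fun s => mellin gf (-s) := funext HH_mellin
  rw [h2]
  exact h1.comp s differentiableAt_id.neg

lemma HH_integrable (h : PsiB) {s : ℂ} (hs : zetaSup < s.re) :
    IntegrableOn (fun v : ℝ => (Sv v : ℂ) * Complex.exp (-s * v)) (Ioi 0) := by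
  obtain ⟨θ, hθ, hθs⟩ := exists_between hs
  obtain ⟨C, hC⟩ := h θ hθ
  have h0 : IntegrableOn (fun v : ℝ => C * Real.exp ((-(s.re - θ)) * v)) (Ioi 0) :=
    (integrableOn_exp_mul_Ioi (by linarith) 0).const_mul C
  refine Integrable.mono h0 ?_ ?_
  · refine Measurable.aestronglyMeasurable ?_
    refine (Complex.measurable_ofReal.comp Sv_measurable).mul ?_
    fun_prop
  · refine (ae_restrict_iff' measurableSet_Ioi).mpr (Eventually.of_forall fun v hv => ?_)
    have hv0 : 0 < v := hv
    have h1 : 1 ≤ Real.exp v := (Real.one_lt_exp_iff.mpr hv0).le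
    have h2 := hC (Real.exp v) h1
    rw [norm_mul, Complex.norm_real, Complex.norm_exp, Real.norm_eq_abs]
    refine le_trans ?_ (Real.le_norm_self _)
    have h3 : (-s * (v : ℂ)).re = -s.re * v := by simp
    rw [h3]
    calc |Sv v| * Real.exp (-s.re * v) ≤ (C * Real.exp v ^ θ) * Real.exp (-s.re * v) :=
          mul_le_mul_of_nonneg_right h2 (Real.exp_pos _).le
      _ = C * Real.exp (-(s.re - θ) * v) := by
          rw [← Real.exp_mul, mul_assoc, ← Real.exp_add]
          congr 2; ring

/-- the identity in the half plane of absolute convergence -/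
lemma HH_eq_HA_of_one_lt {s : ℂ} (hs : 1 < s.re) : HH s = HA s := by
  have hs0 : s ≠ 0 := by
    rintro rfl
    simp at hs
    linarith
  have hs1 : s ≠ 1 := by
    rintro rfl
    simp at hs
  have hs1' : s - 1 ≠ 0 := sub_ne_zero.mpr hs1
  have hO : (fun n : ℕ ↦ ∑ k ∈ Finset.Icc 1 n, ArithmeticFunction.vonMangoldt k) =O[atTop]
      fun n ↦ (n : ℝ) ^ (1 : ℝ) := by
    refine Asymptotics.IsBigO.of_bound (Real.log 4 + 4) (Eventually.of_forall fun n => ?_)
    have h1 := Chebyshev.psi_le_const_mul_self (x := (n : ℝ)) (by positivity)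
    have h2 : Chebyshev.psi (n : ℝ) = ∑ k ∈ Finset.Icc 1 n, ArithmeticFunction.vonMangoldt k := by
      unfold Chebyshev.psi
      rw [Nat.floor_natCast]
      rfl
    rw [← h2, Real.rpow_one, Real.norm_of_nonneg (Chebyshev.psi_nonneg _), Real.norm_of_nonneg (by positivity)]
    exact h1
  have hL := LSeries_eq_mul_integral_of_nonneg (fun k => ArithmeticFunction.vonMangoldt k) zero_le_one hs hO
    (fun n => ArithmeticFunction.vonMangoldt_nonneg)
  rw [ArithmeticFunction.LSeries_vonMangoldt_eq_deriv_riemannZeta_div hs] at hL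
  have hi1 : IntegrableOn (fun t : ℝ => (Chebyshev.psi t : ℂ) * (t : ℂ) ^ (-(s + 1))) (Ioi 1) := by
    have h0 : IntegrableOn (fun t : ℝ => (Real.log 4 + 4) * t ^ (-s.re)) (Ioi 1) :=
      (integrableOn_Ioi_rpow_of_lt (by linarith) one_pos).const_mul _
    refine Integrable.mono h0 ?_ ?_
    · refine AEStronglyMeasurable.mul ?_ ?_
      · exact (Complex.measurable_ofReal.comp Chebyshev.psi_mono.measurable).aestronglyMeasurable
      · refine ContinuousOn.aestronglyMeasurable (fun t ht => ?_) measurableSet_Ioi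
        have ht' : (1:ℝ) < t := ht
        refine ContinuousAt.continuousWithinAt ?_
        exact (Complex.continuousAt_ofReal_cpow_const t _ (Or.inr (by linarith)))
    · refine (ae_restrict_iff' measurableSet_Ioi).mpr (Eventually.of_forall fun t ht => ?_)
      have ht' : (1:ℝ) < t := ht
      have ht0 : (0:ℝ) < t := by linarith
      refine le_trans ?_ (Real.le_norm_self _)
      rw [norm_mul, Complex.norm_real, Real.norm_of_nonneg (Chebyshev.psi_nonneg _),
        Complex.norm_cpow_eq_rpow_re_of_pos ht0]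
      have h1 : (-(s + 1)).re = -s.re - 1 := by simp; ring
      rw [h1, Real.rpow_sub ht0, Real.rpow_one]
      have h2 := Chebyshev.psi_le_const_mul_self ht0.le
      calc Chebyshev.psi t * (t ^ (-s.re) / t) ≤ ((Real.log 4 + 4) * t) * (t ^ (-s.re) / t) :=
            mul_le_mul_of_nonneg_right h2 (by positivity)
        _ = (Real.log 4 + 4) * t ^ (-s.re) := by field_simp
  have hre : (-s).re < -1 := by simpa using hs
  have hi2 : IntegrableOn (fun t : ℝ => (t : ℂ) ^ (-s)) (Ioi 1) := integrableOn_Ioi_cpow_of_lt hre one_pos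
  have hI2 : ∫ t in Ioi (1:ℝ), (t : ℂ) ^ (-s) = 1 / (s - 1) := by
    rw [integral_Ioi_cpow_of_lt hre one_pos]
    simp only [Complex.ofReal_one, Complex.one_cpow]
    have : -s + 1 ≠ 0 := by
      intro h0
      apply hs1'
      linear_combination -h0
    field_simp
    ring
  have hHH : HH s = (∫ t in Ioi (1:ℝ), (Chebyshev.psi t : ℂ) * (t : ℂ) ^ (-(s + 1))) - 1 / (s - 1) := by
    rw [HH_eq, ← hI2, ← integral_sub hi1 hi2]
    refine setIntegral_congr_fun measurableSet_Ioi fun t ht => ?_
    have ht' : (1:ℝ) < t := ht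
    have ht0 : (t : ℂ) ≠ 0 := by
      have : t ≠ 0 := by linarith
      exact_mod_cast this
    have h1 : (t : ℂ) ^ (-s) = (t : ℂ) * (t : ℂ) ^ (-(s + 1)) := by
      rw [show (-s : ℂ) = -(s + 1) + 1 by ring, Complex.cpow_add _ _ ht0, Complex.cpow_one, mul_comm]
    rw [h1, Complex.ofReal_sub]
    ring
  have hpsi : (∫ t in Ioi (1:ℝ), (Chebyshev.psi t : ℂ) * (t : ℂ) ^ (-(s + 1))) =
      ∫ t in Ioi (1 : ℝ), (∑ k ∈ Finset.Icc 1 ⌊t⌋₊, (ArithmeticFunction.vonMangoldt k : ℂ)) *
        (t : ℂ) ^ (-(s + 1)) := by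
    refine setIntegral_congr_fun measurableSet_Ioi fun t _ => ?_
    have h1 : Chebyshev.psi t = ∑ k ∈ Finset.Icc 1 ⌊t⌋₊, ArithmeticFunction.vonMangoldt k := rfl
    rw [h1, Complex.ofReal_sum]
  rw [← hpsi] at hL
  have hz : riemannZeta s ≠ 0 := riemannZeta_ne_zero_of_one_lt_re hs
  have hZs : Zs s = (s - 1) * riemannZeta s := (Zs_eq hs1).symm
  have hdZ : deriv Zs s = riemannZeta s + (s - 1) * deriv riemannZeta s := by
    have h1 : Zs =ᶠ[𝓝 s] fun z => (z - 1) * riemannZeta z := by
      filter_upwards [isOpen_ne.mem_nhds hs1] with z hz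
      exact (Zs_eq hz).symm
    rw [h1.deriv_eq]
    have h2 : HasDerivAt (fun z : ℂ => z - 1) 1 s := (hasDerivAt_id s).sub_const 1
    have h3 := (differentiableAt_riemannZeta hs1).hasDerivAt
    rw [(h2.fun_mul h3).deriv]
    ring
  rw [hHH]
  unfold HA
  rw [hdZ, hZs]
  have hI : (∫ t in Ioi (1:ℝ), (Chebyshev.psi t : ℂ) * (t : ℂ) ^ (-(s + 1))) =
      -deriv riemannZeta s / riemannZeta s / s := by
    rw [hL]; field_simp
  rw [hI]
  field_simp
  ring

theorem hEq_of_psiB (h : PsiB) : HEq := by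
  have hopen := halfplane_open zetaSup
  have h1 : AnalyticOnNhd ℂ HH {s | zetaSup < s.re} :=
    DifferentiableOn.analyticOnNhd (fun _ hs => (HH_differentiableAt h hs).differentiableWithinAt) hopen
  have h2 : AnalyticOnNhd ℂ HA {s | zetaSup < s.re} := by
    refine DifferentiableOn.analyticOnNhd (fun s hs => DifferentiableAt.differentiableWithinAt ?_) hopen
    have hs0 : s ≠ 0 := by
      rintro rfl
      have := zetaSup_pos
      simp only [mem_ofPred_eq, Complex.zero_re] at hs
      linarith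
    have hz := zetaSup_free s hs
    have hd : DifferentiableAt ℂ (deriv Zs) s :=
      (Zs_differentiable.analyticAt s).deriv.differentiableAt
    have hd2 : DifferentiableAt ℂ Zs s := Zs_differentiable s
    unfold HA
    refine DifferentiableAt.sub (DifferentiableAt.div hd.neg (differentiableAt_id.mul hd2) ?_)
      (DifferentiableAt.div (differentiableAt_const 1) differentiableAt_id hs0)
    exact mul_ne_zero hs0 hz
  have h3 := h1.eqOn_of_preconnected_of_eventuallyEq h2 (halfplane_preconnected zetaSup)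
    (z₀ := 2) (by
      have := zetaSup_le_one
      simp only [mem_ofPred_eq, Complex.re_ofNat]
      linarith) (by
      have : {s : ℂ | 1 < s.re} ∈ 𝓝 (2 : ℂ) := (halfplane_open 1).mem_nhds (by simp)
      filter_upwards [this] with z hz
      exact HH_eq_HA_of_one_lt hz)
  exact fun s hs => ⟨HH_integrable h hs, h3 hs⟩

end

end Pool.Agent.H379R2.NicHEq
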